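import Pool.Agent.Helper41_IR.Fin
import Pool.Agent.Helper77_IR.Gap
import Pool.Agent.Helper77_IR.Four
import Pool.Agent.Helper48_IR.Coer
import Pool.Agent.Helper48_IR.Sup
import Pool.Agent.Helper48_IR.Grow
import Pool.Agent.Helper48_IR.Zero
import Pool.Agent.Helper92_IR.Covb
import Pool.Agent.Helper92_IR.Flat2
import Pool.Agent.Helper92_IR.Path
import Pool.Agent.Helper92_IR.Transp
import Pool.Agent.Helper34_IR.Ct
import Pool.Agent.Helper34_IR.Slice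
import Pool.Agent.Helper49_IR.Kbnd
import Pool.Agent.Helper84_IR.Khb
import Pool.Agent.Helper54_IR.Khi
import Pool.Agent.Helper69_IR.Line
import Pool.Agent.Helper69_IR.Mom
import Pool.Agent.Helper62_IR.Mean
import Pool.Agent.Helper85_IR.Meas
import Pool.Agent.Helper85_IR.Rot
import Pool.Agent.Helper85_IR.Sym
import Pool.Agent.Helper85_IR.Avg
import Pool.Agent.Helper34_IR.Core

/-!
# IR: all modules together
-/

set_option autoImplicit false

open MeasureTheory ProbabilityTheory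

open scoped ENNReal NNReal BigOperators

noncomputable section

namespace Pool.Agent.IR

open Matrix Pool.Agent.Anderson Pool.Agent.Loc Pool.Agent.BED

universe u

theorem ctAll : CtStmt := H34.ct H77.gap

theorem khbAll : KhbStmt :=
  H84.khb H77.gap (H48.grow (H48.sup H77.gap) ctAll) H77.four H54.khi

theorem kbndAll : KbndStmt := H49.kbnd (H85.sym H69.mom) H77.four H34.slice H69.line

theorem meanAll : MeanStmt :=
  H62.mean H77.gap ctAll (H48.coer H77.gap) (H48.zero H77.gap) H92.covb H85.meas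

theorem avgAll : AvgStmt := H85A.avg H85.meas khbAll H85.rot (H92.path H77.gap H77.four) H77.gap H77.four

theorem coreAll : CoreStmt := H34.core H77.gap ctAll H77.four

theorem oneAll : OneStmt := one_of meanAll kbndAll avgAll coreAll

theorem concl_rpow {d : ℕ} (hd : 3 ≤ d) {C σ R lam : ℝ} (hlam : 0 < lam) {f g : L2 d}
    {x : Site d} {ρ : ℕ} (h : Concl d C σ R (Real.sqrt lam) f g x ρ) :
    ∑ y ∈ Loc.box x ρ, ‖f y‖ ^ 2 ≤
      C * Real.log R ^ (d + 5) * σ ^ 2 * lam ^ (((d : ℝ) - 3) / 2) *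
        (ρ + lam ^ (-(1 / 2) : ℝ)) *
          (‖f‖ ^ 2 + (‖g‖ / (σ ^ 2 * lam ^ (((d : ℝ) - 2) / 2))) ^ 2) := by
  have h1 : Real.sqrt lam ^ (d - 3) = lam ^ (((d : ℝ) - 3) / 2) := by
    rw [Real.sqrt_eq_rpow, ← Real.rpow_natCast, ← Real.rpow_mul hlam.le, Nat.cast_sub hd]
    congr 1
    push_cast
    ring
  have h2 : 1 / Real.sqrt lam = lam ^ (-(1 / 2) : ℝ) := by
    rw [Real.sqrt_eq_rpow, Real.rpow_neg hlam.le, one_div]
  have h3 : (σ ^ 2) ^ 2 * Real.sqrt lam ^ (2 * (d - 2)) =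
      (σ ^ 2 * lam ^ (((d : ℝ) - 2) / 2)) ^ 2 := by
    rw [mul_pow]
    congr 1
    rw [← Real.rpow_natCast (lam ^ (((d : ℝ) - 2) / 2)), ← Real.rpow_mul hlam.le,
      Real.sqrt_eq_rpow, ← Real.rpow_natCast, ← Real.rpow_mul hlam.le]
    congr 1
    rw [Nat.cast_mul, Nat.cast_sub (by omega : 2 ≤ d)]
    push_cast
    ring
  unfold Concl at h
  rw [h1, h2, h3] at h
  rw [div_pow]
  exact h

theorem final (d : ℕ) (hd : 3 ≤ d) :
    ∃ c C : ℝ, 0 < c ∧ 0 < C ∧ ∀ σ : ℝ, σ ≠ 0 → ∀ t R : ℝ, 2 ≤ t → t ≤ R → 1 / |σ| ≤ R →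
      σ ^ 2 * growth d t * Real.log R ≤ c →
      ∃ Es : ℝ, |Es - 2 * d| ≤ C * (σ ^ 2 + 1 / t) ∧
        ∀ (Ω : Type u) [MeasurableSpace Ω] (P : Measure Ω) [IsProbabilityMeasure P]
          (ξ : Site d → Ω → ℝ), (∀ y, Measurable (ξ y)) →
          (∀ y, P.map (ξ y) = gaussianReal 0 1) → iIndepFun ξ P →
          ∃ G : Set Ω, MeasurableSet G ∧ P Gᶜ ≤ ENNReal.ofReal (1 / R) ∧ ∀ ω ∈ G,
            (∀ E lam : ℝ, lam = Es - |E| → C / t ≤ lam → lam ≤ c →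
              ∀ v r : L2 d,
                (∀ y, lap v y + ((σ * ξ y ω : ℝ) : ℂ) * v y - (E : ℂ) * v y = r y) →
                ∀ (x : Site d) (ρ : ℕ), (∀ i, |(x i : ℝ)| ≤ R) →
                  ∑ y ∈ Loc.box x ρ, ‖v y‖ ^ 2 ≤
                    C * Real.log R ^ (d + 5) * σ ^ 2 * lam ^ (((d : ℝ) - 3) / 2) *
                      (ρ + lam ^ (-(1 / 2) : ℝ)) *
                        (‖v‖ ^ 2 + (‖r‖ / (σ ^ 2 * lam ^ (((d : ℝ) - 2) / 2))) ^ 2)) ∧
            ∀ (x₀ : Site d) (L : ℕ), (∀ i, |(x₀ i : ℝ)| + L ≤ R) →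
              ∀ hH : (HM (fun y => σ * ξ y ω) (Loc.box x₀ L)).IsHermitian,
                (∀ i, |hH.eigenvalues i| < Es) ∧
                ∀ lam : ℝ, C / t ≤ lam → lam ≤ 1 → C ≤ lam * (L : ℝ) ^ 2 →
                  lam ^ ((d : ℝ) / 2) * (2 * (L : ℝ) + 1) ^ d ≤
                    C * ((Finset.univ.filter fun i => Es - lam ≤ hH.eigenvalues i).card : ℝ) := by
  obtain ⟨c, C, hc, hC, h⟩ := main_of oneAll H92.transp H92.flat2 countAll BED.H73.edge
    BED.H73.lawT d hd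
  refine ⟨c, C, hc, by linarith, ?_⟩
  intro σ hσ t R ht htR hσR hcond
  obtain ⟨Es, hEs, h1⟩ := h σ hσ t R ht htR hσR hcond
  refine ⟨Es, hEs, ?_⟩
  intro Ω _ P _ ξ hm hlaw hind
  obtain ⟨G, hG, hPG, h2⟩ := h1 Ω P ξ hm hlaw hind
  refine ⟨G, hG, hPG, fun ω hω => ?_⟩
  obtain ⟨h3, h4⟩ := h2 ω hω
  refine ⟨?_, h4⟩
  intro E lam hlam hl1 hl2 v r hvr x ρ hx
  have hlam0 : 0 < lam := lt_of_lt_of_le (by positivity) hl1
  exact concl_rpow hd hlam0 (h3 E lam hlam hl1 hl2 v r hvr x ρ hx)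

end Pool.Agent.IR
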