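import Pool.Agent.Helper41_IR.Defs

/-!
# IR: basic facts about the definitions
-/

set_option autoImplicit false

open MeasureTheory ProbabilityTheory

open scoped ENNReal NNReal BigOperators

noncomputable section

namespace Pool.Agent.IR

open Matrix Pool.Agent.Anderson Pool.Agent.Loc Pool.Agent.BED

/-! ### norms and inner products -/

section norms

variable {n : Type} [Fintype n]

theorem sqn_nonneg (u : n → ℝ) : 0 ≤ sqn u := Finset.sum_nonneg fun _ _ => sq_nonneg _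

theorem sqn_eq_zero {u : n → ℝ} (h : sqn u = 0) : u = 0 := by
  funext x
  have := (Finset.sum_eq_zero_iff_of_nonneg (fun x _ => sq_nonneg (u x))).1 h x (Finset.mem_univ x)
  simpa using this

theorem sqn_pos {u : n → ℝ} (h : u ≠ 0) : 0 < sqn u :=
  lt_of_le_of_ne (sqn_nonneg u) fun h0 => h (sqn_eq_zero h0.symm)

theorem sqn_smul (c : ℝ) (u : n → ℝ) : sqn (c • u) = c ^ 2 * sqn u := by
  unfold sqn
  rw [Finset.mul_sum]
  exact Finset.sum_congr rfl fun x _ => by simp [mul_pow]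

theorem sqn_neg (u : n → ℝ) : sqn (-u) = sqn u := by
  unfold sqn; simp

theorem ip_self (u : n → ℝ) : ip u u = sqn u := Finset.sum_congr rfl fun x _ => by ring

theorem ip_comm (u v : n → ℝ) : ip u v = ip v u := Finset.sum_congr rfl fun x _ => by ring

theorem ip_add_left (u v w : n → ℝ) : ip (u + v) w = ip u w + ip v w := by
  unfold ip; simp [add_mul, Finset.sum_add_distrib]

theorem ip_add_right (u v w : n → ℝ) : ip u (v + w) = ip u v + ip u w := by
  unfold ip; simp [mul_add, Finset.sum_add_distrib]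

theorem ip_sub_left (u v w : n → ℝ) : ip (u - v) w = ip u w - ip v w := by
  unfold ip; simp [sub_mul, Finset.sum_sub_distrib]

theorem ip_sub_right (u v w : n → ℝ) : ip u (v - w) = ip u v - ip u w := by
  unfold ip; simp [mul_sub, Finset.sum_sub_distrib]

theorem ip_smul_left (c : ℝ) (u v : n → ℝ) : ip (c • u) v = c * ip u v := by
  unfold ip; rw [Finset.mul_sum]; exact Finset.sum_congr rfl fun x _ => by simp [mul_assoc]

theorem ip_smul_right (c : ℝ) (u v : n → ℝ) : ip u (c • v) = c * ip u v := by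
  rw [ip_comm, ip_smul_left, ip_comm]

theorem ip_neg_left (u v : n → ℝ) : ip (-u) v = -ip u v := by unfold ip; simp

theorem ip_neg_right (u v : n → ℝ) : ip u (-v) = -ip u v := by unfold ip; simp

theorem ip_sq_le (u v : n → ℝ) : ip u v ^ 2 ≤ sqn u * sqn v := Finset.sum_mul_sq_le_sq_mul_sq _ _ _

theorem abs_ip_le (u v : n → ℝ) : |ip u v| ≤ Real.sqrt (sqn u) * Real.sqrt (sqn v) := by
  rw [← Real.sqrt_mul (sqn_nonneg u), ← Real.sqrt_sq_eq_abs]
  exact Real.sqrt_le_sqrt (ip_sq_le u v)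

theorem sqn_add (u v : n → ℝ) : sqn (u + v) = sqn u + 2 * ip u v + sqn v := by
  unfold sqn ip
  rw [Finset.mul_sum, ← Finset.sum_add_distrib, ← Finset.sum_add_distrib]
  exact Finset.sum_congr rfl fun x _ => by simp; ring

theorem sqn_sub (u v : n → ℝ) : sqn (u - v) = sqn u - 2 * ip u v + sqn v := by
  unfold sqn ip
  rw [Finset.mul_sum, ← Finset.sum_sub_distrib, ← Finset.sum_add_distrib]
  exact Finset.sum_congr rfl fun x _ => by simp; ring

theorem sqn_add_le (u v : n → ℝ) : sqn (u + v) ≤ 2 * sqn u + 2 * sqn v := by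
  have h1 := sqn_add u v
  have h2 := sqn_sub u v
  have h3 := sqn_nonneg (u - v)
  linarith

/-- the weighted triangle inequality -/
theorem sqn_add_le' (u v : n → ℝ) {η : ℝ} (hη : 0 < η) :
    sqn (u + v) ≤ (1 + η) * sqn u + (1 + 1 / η) * sqn v := by
  have h := sqn_nonneg (η • u - v)
  rw [sqn_sub, sqn_smul, ip_smul_left] at h
  have h1 : 2 * ip u v ≤ η * sqn u + 1 / η * sqn v := by
    have h2 : 0 ≤ (1 / η) * (η ^ 2 * sqn u - 2 * (η * ip u v) + sqn v) :=
      mul_nonneg (by positivity) h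
    have h3 : (1 / η) * (η ^ 2 * sqn u - 2 * (η * ip u v) + sqn v) =
        η * sqn u - 2 * ip u v + 1 / η * sqn v := by
      field_simp
    linarith
  rw [sqn_add]
  linarith

theorem sqrt_sqn_add_le (u v : n → ℝ) :
    Real.sqrt (sqn (u + v)) ≤ Real.sqrt (sqn u) + Real.sqrt (sqn v) := by
  have h1 := abs_ip_le u v
  have h2 := le_abs_self (ip u v)
  have h0 : 0 ≤ Real.sqrt (sqn u) + Real.sqrt (sqn v) := by positivity
  rw [show Real.sqrt (sqn u) + Real.sqrt (sqn v) =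
    Real.sqrt ((Real.sqrt (sqn u) + Real.sqrt (sqn v)) ^ 2) from (Real.sqrt_sq h0).symm]
  refine Real.sqrt_le_sqrt ?_
  rw [sqn_add, add_sq, Real.sq_sqrt (sqn_nonneg u), Real.sq_sqrt (sqn_nonneg v)]
  linarith

theorem ip_mulVec (A : Matrix n n ℝ) (u v : n → ℝ) : ip u (A *ᵥ v) = ip (Aᵀ *ᵥ u) v := by
  unfold ip
  simp only [Matrix.mulVec, dotProduct, Matrix.transpose_apply, Finset.mul_sum, Finset.sum_mul]
  rw [Finset.sum_comm]
  exact Finset.sum_congr rfl fun x _ => Finset.sum_congr rfl fun y _ => by ring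

theorem ip_mulVec_transpose (A : Matrix n n ℝ) (u v : n → ℝ) :
    ip u (Aᵀ *ᵥ v) = ip (A *ᵥ u) v := by
  rw [ip_mulVec, Matrix.transpose_transpose]

theorem sqn_mulVec_eq (A : Matrix n n ℝ) (u : n → ℝ) : sqn (A *ᵥ u) = ip u ((Aᵀ * A) *ᵥ u) := by
  rw [← ip_self, ← Matrix.mulVec_mulVec, ip_mulVec_transpose]

theorem ip_single [DecidableEq n] (x : n) (v : n → ℝ) : ip (Pi.single x 1) v = v x := by
  unfold ip
  rw [Finset.sum_eq_single x]
  · simp
  · intro y _ hy; simp [hy]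
  · simp

theorem mulVec_single_one [DecidableEq n] (A : Matrix n n ℝ) (y x : n) :
    (A *ᵥ (Pi.single y 1)) x = A x y := by
  simp

/-- convexity: the square of an average -/
theorem sq_avg_le {ι : Type} [Fintype ι] (f : ι → ℝ) {N : ℝ} (hN : 0 < N)
    (hc : (Fintype.card ι : ℝ) = N) : ((∑ i, f i) / N) ^ 2 ≤ (∑ i, f i ^ 2) / N := by
  have h := Finset.sum_mul_sq_le_sq_mul_sq (Finset.univ : Finset ι) (fun _ => (1 : ℝ)) f
  simp only [one_mul, one_pow, Finset.sum_const, Finset.card_univ, nsmul_eq_mul, mul_one] at h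
  rw [hc] at h
  rw [div_pow, div_le_div_iff₀ (by positivity) hN]
  nlinarith [h]

end norms

/-! ### the averaging operator -/

section QMfacts

variable {d M : ℕ} [NeZero M]

theorem card_cube (d l : ℕ) : (Fintype.card (Fin d → Fin l) : ℝ) = (l : ℝ) ^ d := by simp

theorem QM_mulVec (l : ℕ) (f : Tor d M → ℝ) (x : Tor d M) :
    (QM d M l *ᵥ f) x = (∑ k : Fin d → Fin l, f (x + H32.vec k)) / (l : ℝ) ^ d := by
  unfold QM
  simp only [Matrix.mulVec, dotProduct, Matrix.of_apply, div_mul_eq_mul_div, ← Finset.sum_div,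
    Finset.sum_mul]
  congr 1
  rw [Finset.sum_comm]
  refine Finset.sum_congr rfl fun k _ => ?_
  simp

theorem QMt_mulVec (l : ℕ) (f : Tor d M → ℝ) (x : Tor d M) :
    ((QM d M l)ᵀ *ᵥ f) x = (∑ k : Fin d → Fin l, f (x - H32.vec k)) / (l : ℝ) ^ d := by
  unfold QM
  simp only [Matrix.mulVec, dotProduct, Matrix.transpose_apply, Matrix.of_apply,
    div_mul_eq_mul_div, ← Finset.sum_div, Finset.sum_mul]
  congr 1
  rw [Finset.sum_comm]
  refine Finset.sum_congr rfl fun k _ => ?_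
  rw [Finset.sum_eq_single (x - H32.vec k)]
  · simp
  · intro y _ hy
    rw [if_neg, zero_mul]
    rintro rfl
    exact hy (by abel)
  · simp

theorem QM_nonneg (l : ℕ) (x y : Tor d M) : 0 ≤ QM d M l x y := by
  unfold QM
  rw [Matrix.of_apply]
  refine div_nonneg (Finset.sum_nonneg fun k _ => ?_) (by positivity)
  split_ifs <;> norm_num

theorem QM_one {l : ℕ} (hl : 1 ≤ l) : QM d M l *ᵥ (1 : Tor d M → ℝ) = 1 := by
  funext x
  rw [QM_mulVec]
  have : (0 : ℝ) < (l : ℝ) ^ d := by positivity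
  simp [this.ne']

theorem QMt_one {l : ℕ} (hl : 1 ≤ l) : (QM d M l)ᵀ *ᵥ (1 : Tor d M → ℝ) = 1 := by
  funext x
  rw [QMt_mulVec]
  have : (0 : ℝ) < (l : ℝ) ^ d := by positivity
  simp [this.ne']

theorem sqn_QM_le {l : ℕ} (hl : 1 ≤ l) (f : Tor d M → ℝ) : sqn (QM d M l *ᵥ f) ≤ sqn f := by
  have hl0 : (0 : ℝ) < (l : ℝ) ^ d := by positivity
  have h1 : ∀ x, (QM d M l *ᵥ f) x ^ 2 ≤ (∑ k : Fin d → Fin l, f (x + H32.vec k) ^ 2) / (l : ℝ) ^ d :=
    fun x => by
      rw [QM_mulVec]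
      exact sq_avg_le _ hl0 (card_cube d l)
  calc sqn (QM d M l *ᵥ f) ≤ ∑ x, (∑ k : Fin d → Fin l, f (x + H32.vec k) ^ 2) / (l : ℝ) ^ d :=
        Finset.sum_le_sum fun x _ => h1 x
    _ = (∑ k : Fin d → Fin l, ∑ x, f (x + H32.vec k) ^ 2) / (l : ℝ) ^ d := by
        rw [← Finset.sum_div, Finset.sum_comm]
    _ = (∑ _k : Fin d → Fin l, sqn f) / (l : ℝ) ^ d := by
        congr 1
        refine Finset.sum_congr rfl fun k _ => ?_
        exact Equiv.sum_comp (Equiv.addRight (H32.vec k)) (fun x => f x ^ 2)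
    _ = sqn f := by
        rw [Finset.sum_const, Finset.card_univ, nsmul_eq_mul, card_cube]
        field_simp

theorem sqn_QMt_le {l : ℕ} (hl : 1 ≤ l) (f : Tor d M → ℝ) : sqn ((QM d M l)ᵀ *ᵥ f) ≤ sqn f := by
  have hl0 : (0 : ℝ) < (l : ℝ) ^ d := by positivity
  have h1 : ∀ x, ((QM d M l)ᵀ *ᵥ f) x ^ 2 ≤
      (∑ k : Fin d → Fin l, f (x - H32.vec k) ^ 2) / (l : ℝ) ^ d :=
    fun x => by
      rw [QMt_mulVec]
      exact sq_avg_le _ hl0 (card_cube d l)
  calc sqn ((QM d M l)ᵀ *ᵥ f) ≤ ∑ x, (∑ k : Fin d → Fin l, f (x - H32.vec k) ^ 2) / (l : ℝ) ^ d :=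
        Finset.sum_le_sum fun x _ => h1 x
    _ = (∑ k : Fin d → Fin l, ∑ x, f (x - H32.vec k) ^ 2) / (l : ℝ) ^ d := by
        rw [← Finset.sum_div, Finset.sum_comm]
    _ = (∑ _k : Fin d → Fin l, sqn f) / (l : ℝ) ^ d := by
        congr 1
        refine Finset.sum_congr rfl fun k _ => ?_
        exact Equiv.sum_comp (Equiv.subRight (H32.vec k)) (fun x => f x ^ 2)
    _ = sqn f := by
        rw [Finset.sum_const, Finset.card_univ, nsmul_eq_mul, card_cube]
        field_simp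

theorem QM_sup {l : ℕ} (hl : 1 ≤ l) (hlM : l ≤ M) (f : Tor d M → ℝ) (x : Tor d M) :
    (l : ℝ) ^ d * (QM d M l *ᵥ f) x ^ 2 ≤ sqn f := by
  have hl0 : (0 : ℝ) < (l : ℝ) ^ d := by positivity
  have h1 : (QM d M l *ᵥ f) x ^ 2 ≤ (∑ k : Fin d → Fin l, f (x + H32.vec k) ^ 2) / (l : ℝ) ^ d := by
    rw [QM_mulVec]
    exact sq_avg_le _ hl0 (card_cube d l)
  have h2 : ∑ k : Fin d → Fin l, f (x + H32.vec k) ^ 2 ≤ sqn f := by
    have hinj : Function.Injective (fun k : Fin d → Fin l => x + (H32.vec k : Tor d M)) :=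
      (add_right_injective x).comp (H32.vec_injective hlM)
    have e := Finset.sum_map Finset.univ (⟨_, hinj⟩ : (Fin d → Fin l) ↪ Tor d M)
      (fun y => f y ^ 2)
    simp only [Function.Embedding.coeFn_mk] at e
    rw [← e]
    exact Finset.sum_le_sum_of_subset_of_nonneg (Finset.subset_univ _) fun y _ _ => sq_nonneg _
  calc (l : ℝ) ^ d * (QM d M l *ᵥ f) x ^ 2 ≤
        (l : ℝ) ^ d * ((∑ k : Fin d → Fin l, f (x + H32.vec k) ^ 2) / (l : ℝ) ^ d) :=
        mul_le_mul_of_nonneg_left h1 hl0.le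
    _ = ∑ k : Fin d → Fin l, f (x + H32.vec k) ^ 2 := by field_simp
    _ ≤ sqn f := h2

theorem QMt_sup {l : ℕ} (hl : 1 ≤ l) (hlM : l ≤ M) (f : Tor d M → ℝ) (x : Tor d M) :
    (l : ℝ) ^ d * ((QM d M l)ᵀ *ᵥ f) x ^ 2 ≤ sqn f := by
  have hl0 : (0 : ℝ) < (l : ℝ) ^ d := by positivity
  have h1 : ((QM d M l)ᵀ *ᵥ f) x ^ 2 ≤
      (∑ k : Fin d → Fin l, f (x - H32.vec k) ^ 2) / (l : ℝ) ^ d := by
    rw [QMt_mulVec]
    exact sq_avg_le _ hl0 (card_cube d l)
  have h2 : ∑ k : Fin d → Fin l, f (x - H32.vec k) ^ 2 ≤ sqn f := by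
    have hinj : Function.Injective (fun k : Fin d → Fin l => x - (H32.vec k : Tor d M)) := by
      intro a b hab
      exact H32.vec_injective hlM (sub_right_injective hab)
    have e := Finset.sum_map Finset.univ (⟨_, hinj⟩ : (Fin d → Fin l) ↪ Tor d M)
      (fun y => f y ^ 2)
    simp only [Function.Embedding.coeFn_mk] at e
    rw [← e]
    exact Finset.sum_le_sum_of_subset_of_nonneg (Finset.subset_univ _) fun y _ _ => sq_nonneg _
  calc (l : ℝ) ^ d * ((QM d M l)ᵀ *ᵥ f) x ^ 2 ≤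
        (l : ℝ) ^ d * ((∑ k : Fin d → Fin l, f (x - H32.vec k) ^ 2) / (l : ℝ) ^ d) :=
        mul_le_mul_of_nonneg_left h1 hl0.le
    _ = ∑ k : Fin d → Fin l, f (x - H32.vec k) ^ 2 := by field_simp
    _ ≤ sqn f := h2

/-- `QM` commutes with translations -/
theorem QM_add (l : ℕ) (a x y : Tor d M) : QM d M l (a + x) (a + y) = QM d M l x y := by
  unfold QM
  rw [Matrix.of_apply, Matrix.of_apply]
  congr 1
  refine Finset.sum_congr rfl fun k _ => ?_
  simp [add_assoc]

theorem QM_shift (l : ℕ) (a : Tor d M) (f : Tor d M → ℝ) (x : Tor d M) :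
    (QM d M l *ᵥ fun y => f (y + a)) x = (QM d M l *ᵥ f) (x + a) := by
  rw [QM_mulVec, QM_mulVec]
  congr 1
  refine Finset.sum_congr rfl fun k _ => ?_
  congr 1
  abel

theorem QM_row_sum {l : ℕ} (hl : 1 ≤ l) (x : Tor d M) : ∑ y, QM d M l x y = 1 := by
  have := congrFun (QM_one (d := d) (M := M) hl) x
  simpa [Matrix.mulVec, dotProduct] using this

theorem QM_col_sum {l : ℕ} (hl : 1 ≤ l) (y : Tor d M) : ∑ x, QM d M l x y = 1 := by
  have := congrFun (QMt_one (d := d) (M := M) hl) y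
  simpa [Matrix.mulVec, dotProduct] using this

end QMfacts

/-! ### the `ℓ¹` norm on the torus -/

section ndfacts

variable {d M : ℕ}

theorem nd_neg [NeZero M] (x : Tor d M) : nd (-x) = nd x := by
  unfold nd
  exact Finset.sum_congr rfl fun i _ => by rw [Pi.neg_apply, ZMod.natAbs_valMinAbs_neg]

theorem nd_add_le [NeZero M] (x y : Tor d M) : nd (x + y) ≤ nd x + nd y := by
  unfold nd
  rw [← Finset.sum_add_distrib]
  refine Finset.sum_le_sum fun i _ => ?_
  rw [Pi.add_apply]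
  exact (ZMod.natAbs_valMinAbs_add_le _ _).trans (Int.natAbs_add_le _ _)

theorem nd_zero : nd (0 : Tor d M) = 0 := by
  unfold nd; simp

theorem nd_sub_comm [NeZero M] (x y : Tor d M) : nd (x - y) = nd (y - x) := by
  rw [← nd_neg (x - y), neg_sub]

theorem natAbs_valMinAbs_natCast_le [NeZero M] (k : ℕ) : ((k : ZMod M).valMinAbs).natAbs ≤ k := by
  have h := ZMod.natAbs_min_of_le_div_two M ((k : ZMod M).valMinAbs) (k : ℤ)
    (by rw [ZMod.coe_valMinAbs]; simp) (ZMod.natAbs_valMinAbs_le _)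
  simpa using h

theorem nd_vec_le [NeZero M] {l : ℕ} (k : Fin d → Fin l) : nd (H32.vec k : Tor d M) ≤ d * l := by
  unfold nd
  calc ∑ i, ((H32.vec k : Tor d M) i).valMinAbs.natAbs ≤ ∑ _i : Fin d, l :=
        Finset.sum_le_sum fun i _ => by
          unfold H32.vec
          exact (natAbs_valMinAbs_natCast_le _).trans (k i).2.le
    _ = d * l := by simp

theorem nd_ev_le [NeZero M] (i : Fin d) : nd (ev i : Tor d M) ≤ 1 := by
  unfold nd
  rw [Finset.sum_eq_single i]
  · unfold ev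
    rw [Pi.single_eq_same]
    have := natAbs_valMinAbs_natCast_le (M := M) 1
    simpa using this
  · intro j _ hj
    unfold ev
    rw [Pi.single_eq_of_ne hj]
    simp
  · simp

theorem QM_support [NeZero M] {l : ℕ} {x y : Tor d M} (h : QM d M l x y ≠ 0) :
    nd (y - x) ≤ d * l := by
  unfold QM at h
  rw [Matrix.of_apply] at h
  have h2 : ∑ k : Fin d → Fin l, (if y = x + (H32.vec k : Tor d M) then (1 : ℝ) else 0) ≠ 0 := by
    intro h0
    rw [h0] at h
    simp at h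
  obtain ⟨k, -, hk⟩ := Finset.exists_ne_zero_of_sum_ne_zero h2
  have hk' : y = x + (H32.vec k : Tor d M) := by
    by_contra hc
    rw [if_neg hc] at hk
    exact hk rfl
  rw [hk', add_sub_cancel_left]
  exact nd_vec_le k

/-- the support of `QMᵀ QM`: two points of a cube -/
theorem QQ_support [NeZero M] {l : ℕ} {x y : Tor d M}
    (h : ((QM d M l)ᵀ * QM d M l) x y ≠ 0) : nd (x - y) ≤ d * l := by
  rw [Matrix.mul_apply] at h
  obtain ⟨z, -, hz⟩ := Finset.exists_ne_zero_of_sum_ne_zero h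
  rw [Matrix.transpose_apply] at hz
  have h1 : QM d M l z x ≠ 0 := left_ne_zero_of_mul hz
  have h2 : QM d M l z y ≠ 0 := right_ne_zero_of_mul hz
  unfold QM at h1 h2
  rw [Matrix.of_apply] at h1 h2
  have h1' : ∑ k : Fin d → Fin l, (if x = z + (H32.vec k : Tor d M) then (1 : ℝ) else 0) ≠ 0 := by
    intro h0; rw [h0] at h1; simp at h1
  have h2' : ∑ k : Fin d → Fin l, (if y = z + (H32.vec k : Tor d M) then (1 : ℝ) else 0) ≠ 0 := by
    intro h0; rw [h0] at h2; simp at h2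
  obtain ⟨k, -, hk⟩ := Finset.exists_ne_zero_of_sum_ne_zero h1'
  obtain ⟨k', -, hk'⟩ := Finset.exists_ne_zero_of_sum_ne_zero h2'
  have e1 : x = z + (H32.vec k : Tor d M) := by
    by_contra hc; rw [if_neg hc] at hk; exact hk rfl
  have e2 : y = z + (H32.vec k' : Tor d M) := by
    by_contra hc; rw [if_neg hc] at hk'; exact hk' rfl
  rw [e1, e2, add_sub_add_left_eq_sub]
  unfold nd
  calc ∑ i, (((H32.vec k : Tor d M) - (H32.vec k' : Tor d M)) i).valMinAbs.natAbs ≤
        ∑ _i : Fin d, l := by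
        refine Finset.sum_le_sum fun i _ => ?_
        rw [Pi.sub_apply]
        unfold H32.vec
        rcases le_total (k' i : ℕ) (k i : ℕ) with h | h
        · rw [← Nat.cast_sub h]
          exact (natAbs_valMinAbs_natCast_le _).trans ((Nat.sub_le _ _).trans (k i).2.le)
        · rw [← neg_sub, ZMod.natAbs_valMinAbs_neg, ← Nat.cast_sub h]
          exact (natAbs_valMinAbs_natCast_le _).trans ((Nat.sub_le _ _).trans (k' i).2.le)
    _ = d * l := by simp

end ndfacts

end Pool.Agent.IR
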