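import Pool.Agent.Helper32_BED.Nash
import Pool.Agent.Helper54_BED.Stmt
import Pool.Agent.Helper61_BED.Trans

/-!
# Ioffe-Regel squad (IR): definitions

A torus `(ℤ/M)^d`, the averaging operator `QM` over cubes of side `l`, the operator
`AP = E - V - Δ + (2/(d l²)) QMᵀ QM`, its inverse `GP`, and the effective operator
`BB = (2/(d l²)) QM GP QMᵀ`. Finite Fourier analysis with real functions.
-/

set_option autoImplicit false

open MeasureTheory ProbabilityTheory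

open scoped ENNReal NNReal BigOperators

noncomputable section

namespace Pool.Agent.IR

open Matrix Pool.Agent.Anderson Pool.Agent.Loc Pool.Agent.BED

variable {d M : ℕ}

/-- the square of the `ℓ²` norm -/
def sqn {n : Type} [Fintype n] (u : n → ℝ) : ℝ := ∑ x, u x ^ 2

/-- the inner product -/
def ip {n : Type} [Fintype n] (u v : n → ℝ) : ℝ := ∑ x, u x * v x

/-- the `ℓ¹` norm on the torus -/
def nd (x : Tor d M) : ℕ := ∑ i, (x i).valMinAbs.natAbs

/-- averaging over cubes of side `l`: `(QM f)(x) = l^(-d) ∑_k f(x + k)` -/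
def QM (d M l : ℕ) [NeZero M] : Matrix (Tor d M) (Tor d M) ℝ :=
  Matrix.of fun x y =>
    (∑ k : Fin d → Fin l, if y = x + (H32.vec k : Tor d M) then (1 : ℝ) else 0) / (l : ℝ) ^ d

/-- the strength `2 / (d l²)` of the penalty -/
def sL (d l : ℕ) : ℝ := 2 / ((d : ℝ) * (l : ℝ) ^ 2)

/-- `E - V - Δ + (2/(d l²)) QMᵀ QM` -/
def AP [NeZero M] (l : ℕ) (E : ℝ) (V : Tor d M → ℝ) : Matrix (Tor d M) (Tor d M) ℝ :=
  AM E V + sL d l • ((QM d M l)ᵀ * QM d M l)

/-- the inverse of `AP` -/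
def GP [NeZero M] (l : ℕ) (E : ℝ) (V : Tor d M → ℝ) : Matrix (Tor d M) (Tor d M) ℝ := (AP l E V)⁻¹

/-- the effective operator: `(1 - BB) (QM v) = QM GP r` if `(E - V - Δ) v = r` -/
def BB [NeZero M] (l : ℕ) (E : ℝ) (V : Tor d M → ℝ) : Matrix (Tor d M) (Tor d M) ℝ :=
  sL d l • (QM d M l * GP l E V * (QM d M l)ᵀ)

/-- the landscape function is within `δ μ` of `μ` -/
def FlatD [NeZero M] (δ z μ : ℝ) (V : Tor d M → ℝ) : Prop :=
  (∀ x, -1 ≤ V x) ∧ (AM z V).PosDef ∧ ∀ x, |DD z V x - μ| ≤ δ * μ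

/-- the standing assumptions on the parameters: the energy `E` is below the energy `z` at which
the landscape function is flat, by at most `7/(10 d l²)` -/
structure Par (d M l : ℕ) (z μ E : ℝ) : Prop where
  hd : 1 ≤ d
  hM : 3 ≤ M
  hl : 1 ≤ l
  hlM : l < M
  hμ : 0 < μ
  hz : z ≤ 2 * d + 1
  hE : 0 ≤ z - E
  hE2 : (z - E) * (l : ℝ) ^ 2 ≤ 7 / (10 * d)

/-- the phase `2π θ·x / M` (for the representatives in `(-M/2, M/2]`) -/
def ph (θ x : Tor d M) : ℝ :=
  2 * Real.pi * (∑ i, ((θ i).valMinAbs : ℝ) * ((x i).valMinAbs : ℝ)) / M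

/-- the squared absolute value of the (unitary) Fourier transform of `w` -/
def ft [NeZero M] (w : Tor d M → ℝ) (θ : Tor d M) : ℝ :=
  ((∑ x, w x * Real.cos (ph θ x)) ^ 2 + (∑ x, w x * Real.sin (ph θ x)) ^ 2) / (M : ℝ) ^ d

/-- the symbol of the convolution with the even function `b` -/
def bh [NeZero M] (b : Tor d M → ℝ) (θ : Tor d M) : ℝ := ∑ y, b y * Real.cos (ph θ y)

/-- the symbol of `2d - Δ` -/
def om (θ : Tor d M) : ℝ := ∑ i, 2 * (1 - Real.cos (2 * Real.pi * ((θ i).valMinAbs : ℝ) / M))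

/-- the convolution matrix -/
def cvM (b : Tor d M → ℝ) : Matrix (Tor d M) (Tor d M) ℝ := Matrix.of fun x y => b (y - x)

/-- the Fourier multiplier -/
def mulM [NeZero M] (u : Tor d M → ℝ) : Matrix (Tor d M) (Tor d M) ℝ :=
  Matrix.of fun x y => (∑ θ, u θ * Real.cos (ph θ (x - y))) / (M : ℝ) ^ d

/-- the regularised inverse `((1 - β(θ))² + ε²)^(-1/2)`, `β` the symbol of `b` -/
def kk [NeZero M] (b : Tor d M → ℝ) (ε : ℝ) (θ : Tor d M) : ℝ :=
  1 / Real.sqrt ((1 - bh b θ) ^ 2 + ε ^ 2)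

/-- the quadratic form `∑ ((1 - β(θ))² + ε²)^(1/2) |ŵ(θ)|²` -/
def NK [NeZero M] (b : Tor d M → ℝ) (ε : ℝ) (w : Tor d M → ℝ) : ℝ :=
  ∑ θ, Real.sqrt ((1 - bh b θ) ^ 2 + ε ^ 2) * ft w θ

/-- the set of potentials with flat landscape function -/
def Gd (d M : ℕ) [NeZero M] (δ z μ : ℝ) : Set (Tor d M → ℝ) := {V | FlatD δ z μ V}

/-- the mean of the effective operator, as a function of `y - x` -/
def bbar [NeZero M] (v : ℝ≥0) (δ z μ : ℝ) (l : ℕ) (E : ℝ) (y : Tor d M) : ℝ :=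
  (∫ V in Gd d M δ z μ, BB l E V 0 y ∂(gau d M v)) / (gau d M v (Gd d M δ z μ)).toReal

/-- The properties of the mean effective operator `b`: symmetry, exponential decay at scale `l`,
the upper bound by the symbol of `1/(1 - c l² Δ)`, and `β(0) ≥ 1 + τ`. -/
structure Sym (d M : ℕ) [NeZero M] (l : ℕ) (C γ τ : ℝ) (b : Tor d M → ℝ) : Prop where
  even : ∀ y, b (-y) = b y
  decay : ∀ y, (l : ℝ) ^ d * |b y| ≤ C * Real.exp (-((nd y : ℝ) / (3 * d * l)))
  coer : ∀ θ, bh b θ ≤ (1 + γ) * (2 / (2 + 2 / 5 * d * (l : ℝ) ^ 2 * om θ))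
  zero : 1 + τ ≤ bh b 0

/-- the rotated pair: `cos a · V + sin a · V'` -/
def rotV {n : Type} (a : ℝ) (V V' : n → ℝ) : n → ℝ := fun x => Real.cos a * V x + Real.sin a * V' x

/-- the derivative of `rotV`: `- sin a · V + cos a · V'` -/
def rotD {n : Type} (a : ℝ) (V V' : n → ℝ) : n → ℝ :=
  fun x => -Real.sin a * V x + Real.cos a * V' x

end Pool.Agent.IR
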