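import Pool.Agent.Helper41_IR.One
import Pool.Agent.Helper54_BED.Stag

/-!
# IR: from the torus to `ℤ^d` (deterministic part of the final theorem)
-/

set_option autoImplicit false

open MeasureTheory ProbabilityTheory

open scoped ENNReal NNReal BigOperators

noncomputable section

namespace Pool.Agent.IR

open Matrix Pool.Agent.Anderson Pool.Agent.Loc Pool.Agent.BED

variable {d M : ℕ}

theorem natAbs_red_sub [NeZero M] (x y : Site d) (i : Fin d) :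
    ((H61.red M y i - H61.red M x i).valMinAbs).natAbs ≤ (y i - x i).natAbs := by
  have h := ZMod.natAbs_min_of_le_div_two M ((H61.red M y i - H61.red M x i).valMinAbs)
    (y i - x i) (by rw [ZMod.coe_valMinAbs]; simp [H61.red]) (ZMod.natAbs_valMinAbs_le _)
  exact h

/-- sums over boxes in `ℤ^d` and on the torus -/
theorem sum_box_le [NeZero M] {L : ℕ} (hM : 2 * L < M) (f : Tor d M → ℝ) (hf : ∀ x, 0 ≤ f x)
    (x : Site d) (ρ : ℕ) (hx : ∀ i, |x i| + ρ ≤ L) :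
    ∑ y ∈ box x ρ, f (H61.red M y) ≤
      ∑ y, (if ∀ i, ((y i - H61.red M x i).valMinAbs).natAbs ≤ ρ then f y else 0) := by
  classical
  have hbox : ∀ y ∈ box x ρ, ∀ i, |y i - x i| ≤ ρ := by
    intro y hy i
    unfold box at hy
    rw [Finset.mem_Icc] at hy
    have h1 := hy.1 i
    have h2 := hy.2 i
    rw [abs_le]
    constructor <;> linarith
  have hle : ∀ y ∈ box x ρ, ∀ i, |y i| ≤ (L : ℤ) := by
    intro y hy i
    have h1 := hbox y hy i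
    have h2 := hx i
    have h3 : |y i| ≤ |y i - x i| + |x i| := by
      have := abs_add_le (y i - x i) (x i)
      simpa using this
    linarith
  have hinj : Set.InjOn (H61.red M : Site d → Tor d M) (box x ρ) := by
    intro a ha b hb hab
    rw [← H61.rep_red hM (hle a ha), ← H61.rep_red hM (hle b hb), hab]
  rw [← Finset.sum_image (f := f) hinj, ← Finset.sum_filter]
  refine Finset.sum_le_sum_of_subset_of_nonneg ?_ fun y _ _ => hf y
  intro y hy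
  obtain ⟨a, ha, rfl⟩ := Finset.mem_image.1 hy
  rw [Finset.mem_filter]
  refine ⟨Finset.mem_univ _, fun i => (natAbs_red_sub x a i).trans ?_⟩
  have h1 := hbox a ha i
  rw [Int.abs_eq_natAbs] at h1
  exact_mod_cast h1

/-- the transfer of the local mass bound, with a change of the energy -/
theorem transfer (hT : TranspStmt) [NeZero M] {L : ℕ} (hd : 3 ≤ d) (hL : 1 ≤ L)
    (hM : 4 * L + 5 ≤ M) {C v q E q' E' η : ℝ} {W : Site d → ℝ} (hC : 0 < C) (hv : 0 < v)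
    (hq : 0 < q) (hq' : 0 < q') (hqq : q' ≤ 2 * q) (hqq' : q ≤ 2 * q') (hη : |E - E'| ≤ η)
    (hsmall : 4 * η ^ 2 + 8 * (d : ℝ) ^ 2 / (L : ℝ) ^ 2 ≤ v ^ 2 * q' ^ (2 * (d - 2)))
    (hloc : LocB d M C v q' E' (fun x => W (rep x)))
    {f g : L2 d} (hfg : ∀ y, lap f y + (W y : ℂ) * f y - (E : ℂ) * f y = g y)
    (x : Site d) (ρ : ℕ) (hx : ∀ i, |x i| + ρ ≤ L) :
    ∑ y ∈ box x ρ, ‖f y‖ ^ 2 ≤
      (16 ^ d * C) * v * Real.log M ^ (d + 5) * q ^ (d - 3) * (ρ + 1 / q) *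
        (‖f‖ ^ 2 + ‖g‖ ^ 2 / (v ^ 2 * q ^ (2 * (d - 2)))) := by
  -- the equation at the energy `E'`
  set g' : L2 d := g + ((E - E' : ℝ) : ℂ) • f with hg'
  have hfg' : ∀ y, lap f y + (W y : ℂ) * f y - (E' : ℂ) * f y = g' y := by
    intro y
    have e : g' y = g y + ((E - E' : ℝ) : ℂ) * f y := rfl
    rw [e, ← hfg y]
    push_cast
    ring
  have hη0 : 0 ≤ η := (abs_nonneg _).trans hη
  have hgn : ‖g'‖ ^ 2 ≤ 2 * ‖g‖ ^ 2 + 2 * η ^ 2 * ‖f‖ ^ 2 := by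
    have h1 : ‖g'‖ ≤ ‖g‖ + η * ‖f‖ := by
      refine (norm_add_le _ _).trans ?_
      rw [norm_smul, Complex.norm_real, Real.norm_eq_abs]
      have := mul_le_mul_of_nonneg_right hη (norm_nonneg f)
      linarith
    have h2 : ‖g'‖ ^ 2 ≤ (‖g‖ + η * ‖f‖) ^ 2 := pow_le_pow_left₀ (norm_nonneg _) h1 2
    nlinarith [sq_nonneg (‖g‖ - η * ‖f‖)]
  obtain ⟨u1, u2, r1, r2, h1, h2, h3, h4, h5⟩ := hT d M L hL hM W E' f g' hfg'
  have hb1 := hloc u1 r1 h1 (H61.red M x) ρ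
  have hb2 := hloc u2 r2 h2 (H61.red M x) ρ
  have hlogM : 0 ≤ Real.log M := Real.log_natCast_nonneg M
  have hw0 : (0 : ℝ) < v ^ 2 * q' ^ (2 * (d - 2)) := by positivity
  have hsum : ∑ y ∈ box x ρ, ‖f y‖ ^ 2 ≤
      C * v * Real.log M ^ (d + 5) * q' ^ (d - 3) * (ρ + 1 / q') *
        ((sqn u1 + sqn u2) + (sqn r1 + sqn r2) / (v ^ 2 * q' ^ (2 * (d - 2)))) := by
    have e1 : ∑ y ∈ box x ρ, ‖f y‖ ^ 2 =
        ∑ y ∈ box x ρ, (u1 (H61.red M y) ^ 2 + u2 (H61.red M y) ^ 2) := by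
      refine Finset.sum_congr rfl fun y hy => h5 y fun i => ?_
      unfold box at hy
      rw [Finset.mem_Icc] at hy
      have h6 := hy.1 i
      have h7 := hy.2 i
      have h8 := hx i
      have h9 : |y i - x i| ≤ ρ := by
        rw [abs_le]; constructor <;> linarith
      have h10 : |y i| ≤ |y i - x i| + |x i| := by
        have := abs_add_le (y i - x i) (x i)
        simpa using this
      linarith
    have h6 := sum_box_le (M := M) (L := L) (by omega) (fun y => u1 y ^ 2)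
      (fun y => sq_nonneg _) x ρ hx
    have h7 := sum_box_le (M := M) (L := L) (by omega) (fun y => u2 y ^ 2)
      (fun y => sq_nonneg _) x ρ hx
    rw [e1, Finset.sum_add_distrib]
    refine (add_le_add (h6.trans hb1) (h7.trans hb2)).trans (le_of_eq ?_)
    ring
  have hρ : (0 : ℝ) ≤ ρ := by positivity
  have hin : (sqn u1 + sqn u2) + (sqn r1 + sqn r2) / (v ^ 2 * q' ^ (2 * (d - 2))) ≤
      4 * (‖f‖ ^ 2 + ‖g‖ ^ 2 / (v ^ 2 * q' ^ (2 * (d - 2)))) := by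
    have h6 : sqn r1 + sqn r2 ≤
        4 * ‖g‖ ^ 2 + (4 * η ^ 2 + 8 * (d : ℝ) ^ 2 / (L : ℝ) ^ 2) * ‖f‖ ^ 2 := by
      refine h4.trans ?_
      have : 8 * (d : ℝ) ^ 2 / (L : ℝ) ^ 2 * ‖f‖ ^ 2 ≥ 0 := by positivity
      linarith
    have h7 : (sqn r1 + sqn r2) / (v ^ 2 * q' ^ (2 * (d - 2))) ≤
        4 * (‖g‖ ^ 2 / (v ^ 2 * q' ^ (2 * (d - 2)))) + ‖f‖ ^ 2 := by
      rw [div_le_iff₀ hw0]
      calc sqn r1 + sqn r2 ≤
            4 * ‖g‖ ^ 2 + (4 * η ^ 2 + 8 * (d : ℝ) ^ 2 / (L : ℝ) ^ 2) * ‖f‖ ^ 2 := h6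
        _ ≤ 4 * ‖g‖ ^ 2 + (v ^ 2 * q' ^ (2 * (d - 2))) * ‖f‖ ^ 2 := by gcongr
        _ = _ := by field_simp
    have h8 : 0 ≤ ‖f‖ ^ 2 := by positivity
    linarith
  have hpow1 : q' ^ (d - 3) ≤ 2 ^ d * q ^ (d - 3) := by
    calc q' ^ (d - 3) ≤ (2 * q) ^ (d - 3) := pow_le_pow_left₀ hq'.le hqq _
      _ = 2 ^ (d - 3) * q ^ (d - 3) := mul_pow _ _ _
      _ ≤ 2 ^ d * q ^ (d - 3) := by
          gcongr
          · norm_num
          · omega
  have hinv : (ρ : ℝ) + 1 / q' ≤ 2 * (ρ + 1 / q) := by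
    have h6 : 1 / q' ≤ 2 * (1 / q) := by
      rw [mul_one_div, div_le_div_iff₀ hq' hq]
      linarith
    linarith
  have hpow2 : ‖g‖ ^ 2 / (v ^ 2 * q' ^ (2 * (d - 2))) ≤
      2 ^ (2 * (d - 2)) * (‖g‖ ^ 2 / (v ^ 2 * q ^ (2 * (d - 2)))) := by
    have h6 : q ^ (2 * (d - 2)) ≤ 2 ^ (2 * (d - 2)) * q' ^ (2 * (d - 2)) := by
      rw [← mul_pow]
      exact pow_le_pow_left₀ hq.le hqq' _
    rw [div_le_iff₀ hw0]
    have h7 : (0 : ℝ) < v ^ 2 * q ^ (2 * (d - 2)) := by positivity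
    calc ‖g‖ ^ 2 = ‖g‖ ^ 2 / (v ^ 2 * q ^ (2 * (d - 2))) * (v ^ 2 * q ^ (2 * (d - 2))) := by
          field_simp
      _ ≤ ‖g‖ ^ 2 / (v ^ 2 * q ^ (2 * (d - 2))) *
            (v ^ 2 * (2 ^ (2 * (d - 2)) * q' ^ (2 * (d - 2)))) := by gcongr
      _ = _ := by ring
  have hone : (1 : ℝ) ≤ 2 ^ (2 * (d - 2)) := one_le_pow₀ (by norm_num)
  calc ∑ y ∈ box x ρ, ‖f y‖ ^ 2 ≤
        C * v * Real.log M ^ (d + 5) * q' ^ (d - 3) * (ρ + 1 / q') *
          ((sqn u1 + sqn u2) + (sqn r1 + sqn r2) / (v ^ 2 * q' ^ (2 * (d - 2)))) := hsum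
    _ ≤ C * v * Real.log M ^ (d + 5) * (2 ^ d * q ^ (d - 3)) * (2 * (ρ + 1 / q)) *
          (4 * (2 ^ (2 * (d - 2)) * ‖f‖ ^ 2 +
            2 ^ (2 * (d - 2)) * (‖g‖ ^ 2 / (v ^ 2 * q ^ (2 * (d - 2)))))) := by
        have h0 : 0 ≤ (sqn u1 + sqn u2) + (sqn r1 + sqn r2) / (v ^ 2 * q' ^ (2 * (d - 2))) :=
          add_nonneg (add_nonneg (sqn_nonneg _) (sqn_nonneg _))
            (div_nonneg (add_nonneg (sqn_nonneg _) (sqn_nonneg _)) hw0.le)
        gcongr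
        refine hin.trans ?_
        have h8 : ‖f‖ ^ 2 ≤ 2 ^ (2 * (d - 2)) * ‖f‖ ^ 2 :=
          le_mul_of_one_le_left (by positivity) hone
        linarith
    _ = (2 ^ d * 2 * 4 * 2 ^ (2 * (d - 2)) * C) * v * Real.log M ^ (d + 5) * q ^ (d - 3) *
          (ρ + 1 / q) * (‖f‖ ^ 2 + ‖g‖ ^ 2 / (v ^ 2 * q ^ (2 * (d - 2)))) := by ring
    _ ≤ _ := by
        have h9 : (2 : ℝ) ^ d * 2 * 4 * 2 ^ (2 * (d - 2)) ≤ 16 ^ d := by
          have e : (2 : ℝ) ^ d * 2 * 4 * 2 ^ (2 * (d - 2)) = 2 ^ (d + 3 + 2 * (d - 2)) := by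
            rw [pow_add, pow_add]
            norm_num
            ring
          rw [e, show (16 : ℝ) = 2 ^ 4 by norm_num, ← pow_mul]
          exact pow_le_pow_right₀ (by norm_num) (by omega)
        have h10 : 0 ≤ ‖f‖ ^ 2 + ‖g‖ ^ 2 / (v ^ 2 * q ^ (2 * (d - 2))) := by positivity
        gcongr

/-- staggering of the equation -/
theorem stg_eq {W : Site d → ℝ} {E : ℝ} {f g : L2 d}
    (hfg : ∀ y, lap f y + (W y : ℂ) * f y - (E : ℂ) * f y = g y) (y : Site d) :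
    lap (stg f) y + ((-W y : ℝ) : ℂ) * stg f y - ((-E : ℝ) : ℂ) * stg f y = (-stg g : L2 d) y := by
  have h2 : lap (stg f) y = - (sg y : ℂ) * lap f y := by
    unfold lap
    rw [Finset.mul_sum]
    refine Finset.sum_congr rfl fun i _ => ?_
    rw [stg_apply, stg_apply, sg_add, sg_sub]
    push_cast; ring
  have e : (-stg g : L2 d) y = -((sg y : ℂ) * g y) := rfl
  rw [h2, stg_apply, e]
  push_cast
  linear_combination (-(sg y : ℂ)) * hfg y

end Pool.Agent.IR
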