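import Pool.Agent.Helper41_IR.Det
import Pool.Agent.Helper54_BED.All

/-!
# IR: final assembly
-/

set_option autoImplicit false

open MeasureTheory ProbabilityTheory

open scoped ENNReal NNReal BigOperators

noncomputable section

namespace Pool.Agent.IR

open Matrix Pool.Agent.Anderson Pool.Agent.Loc Pool.Agent.BED

universe u

theorem exp_small (d A : ℕ) {c0 : ℝ} (hc0 : 0 < c0) : ∃ c : ℝ, 0 < c ∧
    ∀ σ t R : ℝ, σ ≠ 0 → 2 ≤ t → t ≤ R → σ ^ 2 * growth d t * Real.log R ≤ c →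
      Real.exp (-c0 / (σ ^ 2 * growth d t)) ≤ 1 / R ^ A := by
  refine ⟨c0 / (A + 1), by positivity, ?_⟩
  intro σ t R hσ ht htR hcond
  have hR0 : 0 < R := by linarith
  have hg := one_le_growth d (t := t) (by linarith)
  have hσ2 : 0 < σ ^ 2 := by positivity
  have hs : 0 < σ ^ 2 * growth d t := by positivity
  have hlogR : 0 ≤ Real.log R := Real.log_nonneg (by linarith)
  have h2 : A * Real.log R ≤ c0 / (σ ^ 2 * growth d t) := by
    rw [le_div_iff₀ hs]
    rw [le_div_iff₀ (by positivity)] at hcond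
    have : 0 ≤ σ ^ 2 * growth d t * Real.log R := by positivity
    nlinarith
  have h4 : Real.exp (-c0 / (σ ^ 2 * growth d t)) ≤ Real.exp (-(A * Real.log R)) := by
    refine Real.exp_le_exp.2 ?_
    rw [neg_div]; linarith
  refine h4.trans (le_of_eq ?_)
  rw [Real.exp_neg, Real.exp_nat_mul, Real.exp_log hR0, one_div]

theorem R_large (d : ℕ) (R0 : ℝ) (hR0 : 0 < R0) : ∃ c : ℝ, 0 < c ∧
    ∀ σ t R : ℝ, σ ≠ 0 → 2 ≤ t → t ≤ R → 1 / |σ| ≤ R → σ ^ 2 * growth d t * Real.log R ≤ c →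
      R0 ≤ R := by
  have hlog2 : 0 < Real.log 2 := Real.log_pos (by norm_num)
  refine ⟨Real.log 2 / R0 ^ 2, by positivity, ?_⟩
  intro σ t R hσ ht htR hσR hcond
  have hR : 2 ≤ R := by linarith
  have hRp : 0 < R := by linarith
  have hg := one_le_growth d (t := t) (by linarith)
  have hσ0 : 0 < |σ| := abs_pos.2 hσ
  have h1 : 1 ≤ R * |σ| := by
    rw [div_le_iff₀ hσ0] at hσR
    exact hσR
  have h2 : 1 ≤ R ^ 2 * σ ^ 2 := by
    rw [← sq_abs σ, ← mul_pow]
    exact one_le_pow₀ h1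
  have h3 : Real.log 2 ≤ Real.log R := Real.log_le_log (by norm_num) hR
  have h4 : σ ^ 2 * 1 * Real.log 2 ≤ σ ^ 2 * growth d t * Real.log R := by gcongr
  have h5 : σ ^ 2 * Real.log 2 * R0 ^ 2 ≤ Real.log 2 := by
    have := h4.trans hcond
    rw [le_div_iff₀ (by positivity)] at this
    linarith
  have h6 : R0 ^ 2 ≤ R ^ 2 := by
    have h7 : σ ^ 2 * R0 ^ 2 ≤ 1 := by
      have : Real.log 2 * (σ ^ 2 * R0 ^ 2) ≤ Real.log 2 * 1 := by linarith
      exact le_of_mul_le_mul_left this hlog2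
    have hσ2 : 0 < σ ^ 2 := by positivity
    have h8 : σ ^ 2 * R0 ^ 2 ≤ σ ^ 2 * R ^ 2 := by linarith
    exact le_of_mul_le_mul_left h8 hσ2
  exact le_of_sq_le_sq h6 hRp.le

theorem FlatD.toFlat {d M : ℕ} [NeZero M] {δ z μ : ℝ} {V : Tor d M → ℝ} (h : FlatD δ z μ V)
    (hμ : 0 ≤ μ) (hδ : δ ≤ 1 / 50) : Flat z μ V :=
  ⟨h.1, h.2.1, fun x => (h.2.2 x).trans (by
    have := mul_le_mul_of_nonneg_right hδ hμ
    linarith)⟩

theorem sum_box_norm_le {d : ℕ} (f : L2 d) (x : Site d) (ρ : ℕ) :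
    ∑ y ∈ box x ρ, ‖f y‖ ^ 2 ≤ ‖f‖ ^ 2 := by
  rw [L2.norm_sq]
  exact (L2.summable_sq f).sum_le_tsum _ fun x _ => by positivity

/-- the conclusion for one energy, in terms of `q = √lam` -/
def Concl (d : ℕ) (C σ R q : ℝ) (f g : L2 d) (x : Site d) (ρ : ℕ) : Prop :=
  ∑ y ∈ box x ρ, ‖f y‖ ^ 2 ≤
    C * Real.log R ^ (d + 5) * σ ^ 2 * q ^ (d - 3) * (ρ + 1 / q) *
      (‖f‖ ^ 2 + ‖g‖ ^ 2 / ((σ ^ 2) ^ 2 * q ^ (2 * (d - 2))))

/-- the trivial case: large radius -/
theorem concl_trivial {d : ℕ} (hd : 3 ≤ d) {C σ R q : ℝ} (hC : 1 ≤ C) (hR : 2 ≤ R)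
    (hσ : 0 < σ ^ 2) (hσR : 1 ≤ R ^ 2 * σ ^ 2) (hq : 0 < q) (hqR : 1 ≤ R * q)
    (f g : L2 d) (x : Site d) (ρ : ℕ) (hρ : R ^ (3 * d + 10) ≤ 2 * ρ) : Concl d C σ R q f g x ρ := by
  unfold Concl
  have hlog : 1 / 2 ≤ Real.log R := by
    have h1 := Real.log_two_gt_d9
    have h2 : Real.log 2 ≤ Real.log R := Real.log_le_log (by norm_num) hR
    linarith
  have hR0 : 0 < R := by linarith
  have h1 : 1 ≤ C * Real.log R ^ (d + 5) * σ ^ 2 * q ^ (d - 3) * (ρ + 1 / q) := by
    have h2 : (1 / 2 : ℝ) ^ (d + 5) ≤ Real.log R ^ (d + 5) := pow_le_pow_left₀ (by norm_num) hlog _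
    have h3 : 1 / R ^ 2 ≤ σ ^ 2 := by
      rw [div_le_iff₀ (by positivity)]
      linarith
    have h4 : (1 / R) ^ (d - 3) ≤ q ^ (d - 3) := by
      refine pow_le_pow_left₀ (by positivity) ?_ _
      rw [div_le_iff₀ hR0]
      linarith
    have h5 : R ^ (3 * d + 10) / 2 ≤ ρ + 1 / q := by
      have : 0 < 1 / q := by positivity
      linarith
    calc (1 : ℝ) ≤ (1 / 2) ^ (d + 6) * R ^ (2 * d + 11) := by
          have h6 : (2 : ℝ) ^ (2 * d + 11) ≤ R ^ (2 * d + 11) := pow_le_pow_left₀ (by norm_num) hR _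
          calc (1 : ℝ) ≤ (1 / 2) ^ (d + 6) * 2 ^ (2 * d + 11) := by
                rw [_root_.one_div_pow, div_mul_eq_mul_div, one_mul, le_div_iff₀ (by positivity),
                  one_mul]
                exact pow_le_pow_right₀ (by norm_num) (by omega)
            _ ≤ _ := by gcongr
      _ = 1 * (1 / 2) ^ (d + 5) * (1 / R ^ 2) * (1 / R) ^ (d - 3) * (R ^ (3 * d + 10) / 2) := by
          obtain ⟨k, rfl⟩ : ∃ k, d = k + 3 := ⟨d - 3, by omega⟩
          rw [Nat.add_sub_cancel, _root_.one_div_pow, _root_.one_div_pow, _root_.one_div_pow]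
          field_simp
          ring
      _ ≤ _ := by gcongr
  have h6 : 0 ≤ ‖g‖ ^ 2 / ((σ ^ 2) ^ 2 * q ^ (2 * (d - 2))) := by positivity
  have h7 := sum_box_norm_le f x ρ
  have h8 : 0 ≤ ‖f‖ ^ 2 := by positivity
  calc ∑ y ∈ box x ρ, ‖f y‖ ^ 2 ≤
        1 * (‖f‖ ^ 2 + ‖g‖ ^ 2 / ((σ ^ 2) ^ 2 * q ^ (2 * (d - 2)))) := by linarith
    _ ≤ _ := mul_le_mul_of_nonneg_right h1 (by linarith)

/-- the parameters of the torus -/
theorem params {d : ℕ} {R : ℝ} (hR : 2 ≤ R) : ∃ L : ℕ, 1 ≤ L ∧ R ^ (3 * d + 10) ≤ L ∧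
    ((4 * L + 5 : ℕ) : ℝ) ≤ 13 * R ^ (3 * d + 10) ∧ (L : ℝ) ≤ R ^ (3 * d + 10) + 1 := by
  have hR1 : 1 ≤ R ^ (3 * d + 10) := one_le_pow₀ (by linarith)
  refine ⟨⌈R ^ (3 * d + 10)⌉₊, ?_, Nat.le_ceil _, ?_, (Nat.ceil_lt_add_one (by linarith)).le⟩
  · exact Nat.one_le_ceil_iff.2 (by linarith)
  · have := Nat.ceil_lt_add_one (a := R ^ (3 * d + 10)) (by linarith)
    push_cast
    linarith

theorem main_of (hOne : OneStmt) (hT : TranspStmt) (hF2 : Flat2Stmt) (hCount : CountStmt)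
    (hEdge : EdgeStmt) (hLaw : LawStmt.{u}) (d : ℕ) (hd : 3 ≤ d) :
    ∃ c C : ℝ, 0 < c ∧ 1 ≤ C ∧ ∀ σ : ℝ, σ ≠ 0 → ∀ t R : ℝ, 2 ≤ t → t ≤ R → 1 / |σ| ≤ R →
      σ ^ 2 * growth d t * Real.log R ≤ c →
      ∃ Es : ℝ, |Es - 2 * d| ≤ C * (σ ^ 2 + 1 / t) ∧
        ∀ (Ω : Type u) [MeasurableSpace Ω] (P : Measure Ω) [IsProbabilityMeasure P]
          (ξ : Site d → Ω → ℝ), (∀ y, Measurable (ξ y)) →
          (∀ y, P.map (ξ y) = gaussianReal 0 1) → iIndepFun ξ P →
          ∃ G : Set Ω, MeasurableSet G ∧ P Gᶜ ≤ ENNReal.ofReal (1 / R) ∧ ∀ ω ∈ G,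
            (∀ (E lam : ℝ), lam = Es - |E| → C / t ≤ lam → lam ≤ c →
              ∀ f g : L2 d,
                (∀ y, lap f y + ((σ * ξ y ω : ℝ) : ℂ) * f y - (E : ℂ) * f y = g y) →
                ∀ (x : Site d) (ρ : ℕ), (∀ i, |(x i : ℝ)| ≤ R) →
                  Concl d C σ R (Real.sqrt lam) f g x ρ) ∧
            ∀ (x₀ : Site d) (L : ℕ), (∀ i, |(x₀ i : ℝ)| + L ≤ R) →
              ∀ hH : (HM (fun y => σ * ξ y ω) (box x₀ L)).IsHermitian,
                (∀ i, |hH.eigenvalues i| < Es) ∧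
                ∀ lam : ℝ, C / t ≤ lam → lam ≤ 1 → C ≤ lam * (L : ℝ) ^ 2 →
                  lam ^ ((d : ℝ) / 2) * (2 * (L : ℝ) + 1) ^ d ≤
                    C * ((Finset.univ.filter fun i => Es - lam ≤ hH.eigenvalues i).card : ℝ) := by
  have hd0 : (3 : ℝ) ≤ d := by exact_mod_cast hd
  obtain ⟨cs, δ, Co, hcs, hcs1, hδ, hδ', hCo, hOne⟩ := hOne d hd 9
  obtain ⟨c0, C0, hc0, hC0, hF⟩ := hF2 d hd δ hδ hδ'
  obtain ⟨Cc, hCc, hCnt⟩ := hCount d (by omega)
  -- the exponents and the smallness constants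
  set k : ℕ := 3 * d + 10 with hk
  obtain ⟨ce, hce, hexp⟩ := exp_small d (k * d + 8 * k + 4) hc0
  set R0 : ℝ := 3 + 4 * Co * 13 ^ 7 * (C0 * 13 ^ d + 1) + C0 * 13 ^ d * 4 with hR0def
  have hR0p : 0 < R0 := by positivity
  obtain ⟨cr, hcr, hRl⟩ := R_large d R0 hR0p
  set c : ℝ := min (min ce cr) (min cs (1 / 2)) with hc
  have hcp : 0 < c := by positivity
  have hcce : c ≤ ce := (min_le_left _ _).trans (min_le_left _ _)
  have hccr : c ≤ cr := (min_le_left _ _).trans (min_le_right _ _)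
  have hccs : c ≤ cs := (min_le_right _ _).trans (min_le_left _ _)
  have hc2 : c ≤ 1 / 2 := (min_le_right _ _).trans (min_le_right _ _)
  set C : ℝ := 2 + 2 * C0 + Cc + 16 ^ d * Co * (k + 4) ^ (d + 5) with hC
  have hC1 : 1 ≤ C := by
    have : 0 ≤ 2 * C0 + Cc + 16 ^ d * Co * (k + 4) ^ (d + 5) := by positivity
    linarith
  refine ⟨c, C, hcp, hC1, ?_⟩
  intro σ hσ t R ht htR hσR hcond
  have hR : 2 ≤ R := by linarith
  have hRp : 0 < R := by linarith
  have hR1 : 1 ≤ R := by linarith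
  have ht0 : 0 < t := by linarith
  have hσ2 : 0 < σ ^ 2 := by positivity
  have hσ0 : 0 < |σ| := abs_pos.2 hσ
  have hσR2 : 1 ≤ R ^ 2 * σ ^ 2 := by
    rw [← sq_abs σ, ← mul_pow]
    refine one_le_pow₀ ?_
    rw [div_le_iff₀ hσ0] at hσR
    exact hσR
  have hRR0 : R0 ≤ R := hRl σ t R hσ ht htR hσR (hcond.trans hccr)
  have hg := one_le_growth d (t := t) (by linarith)
  have hlogR : (0.69 : ℝ) ≤ Real.log R := by
    have h1 := Real.log_two_gt_d9
    have h2 : Real.log 2 ≤ Real.log R := Real.log_le_log (by norm_num) hR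
    linarith
  have hσ1 : σ ^ 2 ≤ 1 := by
    have h1 : σ ^ 2 * 1 * 0.69 ≤ σ ^ 2 * growth d t * Real.log R := by gcongr
    nlinarith
  obtain ⟨L, hL1, hLR, hMR, hLR'⟩ := params (d := d) hR
  rw [← hk] at hLR hMR hLR'
  set M : ℕ := 4 * L + 5 with hM
  have : NeZero M := ⟨by omega⟩
  have hRk1 : 1 ≤ R ^ k := one_le_pow₀ hR1
  have hRk : 0 < R ^ k := by positivity
  have hM4 : 4 * R ^ k ≤ M := by
    rw [hM]; push_cast; linarith
  have hRRk : R ≤ R ^ k := le_self_pow₀ hR1 (by omega)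
  have htM : t ≤ M := by linarith
  have hM0 : (0 : ℝ) < M := by positivity
  -- the disorder as a nonnegative real
  set s : ℝ≥0 := ⟨|σ|, abs_nonneg σ⟩ with hs
  have hsσ : (s : ℝ) ^ 2 = σ ^ 2 := by
    rw [hs]; exact sq_abs σ
  have hs0 : 0 < s := by
    rw [← NNReal.coe_pos]; exact abs_pos.2 hσ
  have hs1 : s ≤ 1 := by
    rw [← NNReal.coe_le_coe]
    exact abs_le_one_iff_mul_self_le_one.2 (by nlinarith)
  set p : ℝ := C0 * (1 + Real.log t) * (M : ℝ) ^ d *
    Real.exp (-c0 / ((s : ℝ) ^ 2 * growth d t)) with hp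
  have hpR : p ≤ C0 * 13 ^ d / R ^ (8 * k + 3) := by
    rw [hp, hsσ]
    have h1 := hexp σ t R hσ ht htR (hcond.trans hcce)
    have h2 : 1 + Real.log t ≤ R := by
      have := Real.log_le_sub_one_of_pos (x := t) (by linarith)
      linarith
    have h3 : 0 ≤ 1 + Real.log t := by
      have := Real.log_nonneg (x := t) (by linarith)
      linarith
    have h4 : (M : ℝ) ^ d ≤ 13 ^ d * R ^ (k * d) := by
      rw [pow_mul, ← mul_pow]
      exact pow_le_pow_left₀ hM0.le hMR d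
    calc C0 * (1 + Real.log t) * (M : ℝ) ^ d * Real.exp (-c0 / (σ ^ 2 * growth d t)) ≤
          C0 * R * (13 ^ d * R ^ (k * d)) * (1 / R ^ (k * d + 8 * k + 4)) := by gcongr
      _ = C0 * 13 ^ d / R ^ (8 * k + 3) := by
          field_simp
          ring
  have hp0 : 0 ≤ p := by
    have := Real.log_nonneg (x := t) (by linarith)
    positivity
  have hpR2 : p ≤ 1 / (4 * R ^ 2) := by
    refine hpR.trans ?_
    rw [div_le_div_iff₀ (by positivity) (by positivity), one_mul]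
    have h1 : C0 * 13 ^ d * 4 ≤ R := by
      have : 0 ≤ 4 * Co * 13 ^ 7 * (C0 * 13 ^ d + 1) := by positivity
      linarith
    calc C0 * 13 ^ d * (4 * R ^ 2) = (C0 * 13 ^ d * 4) * R ^ 2 := by ring
      _ ≤ R * R ^ 2 := by gcongr
      _ = R ^ 3 := by ring
      _ ≤ R ^ (8 * k + 3) := pow_le_pow_right₀ hR1 (by omega)
  have hp2 : p ≤ 1 / 2 := by
    refine hpR2.trans (one_div_le_one_div_of_le (by norm_num) ?_)
    nlinarith
  obtain ⟨z, μ, hμ1, hμ2, hz, hzest, hmeas⟩ := hF M t s p (by omega) (by linarith) htM hs0 hs1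
    rfl hp2
  have hμ0 : 0 < μ := by linarith
  refine ⟨z, ?_, ?_⟩
  · refine hzest.trans ?_
    rw [hsσ]
    have h1 : Real.sqrt p ≤ 1 / t := by
      rw [Real.sqrt_le_left (by positivity)]
      refine hpR2.trans ?_
      rw [div_pow, one_pow]
      refine one_div_le_one_div_of_le (by positivity) ?_
      nlinarith
    have h2 : 0 ≤ 1 / t := by positivity
    have h3 : 2 * C0 ≤ C := by
      rw [hC]
      have : 0 ≤ 2 + Cc + 16 ^ d * Co * (k + 4) ^ (d + 5) := by positivity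
      linarith
    calc C0 * (σ ^ 2 + 1 / t + Real.sqrt p) ≤ C0 * (2 * (σ ^ 2 + 1 / t)) := by
          gcongr
          linarith
      _ = 2 * C0 * (σ ^ 2 + 1 / t) := by ring
      _ ≤ C * (σ ^ 2 + 1 / t) := by gcongr
  intro Ω _ P _ ξ hm hlaw hind
  set Vp : Ω → Tor d M → ℝ := fun ω x => σ * ξ (rep x) ω with hVp
  set Vm : Ω → Tor d M → ℝ := fun ω x => -σ * ξ (rep x) ω with hVm
  have hvv : ((s ^ 2 : ℝ≥0) : ℝ) = σ ^ 2 := by rw [← hsσ]; push_cast; rfl
  have hlp := hLaw d M Ω P ξ hm hlaw hind σ (s ^ 2) hvv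
  have hlm := hLaw d M Ω P ξ hm hlaw hind (-σ) (s ^ 2) (by rw [hvv]; ring)
  have hmp : Measurable Vp := measurable_pi_lambda _ fun x => (hm (rep x)).const_mul σ
  have hmm : Measurable Vm := measurable_pi_lambda _ fun x => (hm (rep x)).const_mul (-σ)
  have hVle : ∀ S : Set (Tor d M → ℝ), P {ω | Vp ω ∈ S} ≤ gau d M (s ^ 2) S ∧
      P {ω | Vm ω ∈ S} ≤ gau d M (s ^ 2) S := by
    intro S
    constructor
    · have h2 := Measure.le_map_apply (μ := P) hmp.aemeasurable S
      rw [show P.map Vp = gau d M (s ^ 2) from hlp] at h2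
      exact h2
    · have h2 := Measure.le_map_apply (μ := P) hmm.aemeasurable S
      rw [show P.map Vm = gau d M (s ^ 2) from hlm] at h2
      exact h2
  -- the energies
  set η : ℝ := 1 / R ^ k with hη
  have hη0 : 0 < η := by positivity
  set cond : ℕ → Prop := fun j => 4 / μ ≤ j * η ∧ j * η ≤ cs with hcondj
  set BS : ℕ → Set (Tor d M → ℝ) := fun j =>
    {V | cond j ∧ ¬ LocB d M Co ((s ^ 2 : ℝ≥0) : ℝ) (Real.sqrt (j * η)) (z - j * η) V} with hBS
  set F0 : Set (Tor d M → ℝ) := {V | ¬ FlatD δ z μ V} with hF0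
  set pj : ℝ := Co * 13 ^ 7 * (C0 * 13 ^ d + 1) / (R ^ k * R ^ 3) with hpj
  have hpj0 : 0 ≤ pj := by positivity
  have hBSP : ∀ j, gau d M (s ^ 2) (BS j) ≤ ENNReal.ofReal pj := by
    intro j
    by_cases hcj : cond j
    · obtain ⟨h1, h2⟩ := hcj
      have hjη : 0 < j * η := lt_of_lt_of_le (by positivity) h1
      have hq2 : Real.sqrt (j * η) ^ 2 = j * η := Real.sq_sqrt hjη.le
      have hjη' : 1 / (4 * R) ≤ j * η := by
        refine le_trans ?_ h1
        rw [div_le_div_iff₀ (by positivity) hμ0]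
        linarith
      have hqM : 1 / Real.sqrt (j * η) ^ 2 ≤ M := by
        rw [hq2]
        have h3 : 1 / (j * η) ≤ 4 * R := by
          rw [div_le_iff₀ hjη]
          rw [div_le_iff₀ (by positivity)] at hjη'
          linarith
        linarith
      have hvM : 1 / (((s ^ 2 : ℝ≥0) : ℝ) * Real.sqrt (j * η) ^ (2 * d)) ≤ M := by
        rw [hvv, pow_mul, hq2]
        have h3 : (1 / (4 * R)) ^ d ≤ (j * η) ^ d := pow_le_pow_left₀ (by positivity) hjη' d
        have h4 : 1 / R ^ 2 ≤ σ ^ 2 := by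
          rw [div_le_iff₀ (by positivity)]
          linarith
        rw [div_le_iff₀ (by positivity)]
        have h5 : (4 : ℝ) ^ d ≤ R ^ (2 * d) := by
          rw [pow_mul]
          exact pow_le_pow_left₀ (by norm_num) (by nlinarith) d
        calc (1 : ℝ) = R ^ (3 * d + 2) * (1 / R ^ 2 * (1 / R) ^ (3 * d)) := by
              rw [_root_.one_div_pow]
              field_simp
              ring
          _ ≤ R ^ k * (1 / R ^ 2 * (1 / (4 * R)) ^ d) := by
              have h6 : (1 / R) ^ (3 * d) ≤ (1 / (4 * R)) ^ d := by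
                rw [_root_.one_div_pow, _root_.one_div_pow]
                refine one_div_le_one_div_of_le (by positivity) ?_
                rw [mul_pow]
                calc (4 : ℝ) ^ d * R ^ d ≤ R ^ (2 * d) * R ^ d := by gcongr
                  _ = R ^ (3 * d) := by rw [← pow_add]; congr 1; ring
              have h7 : R ^ (3 * d + 2) ≤ R ^ k := pow_le_pow_right₀ hR1 (by omega)
              gcongr
          _ ≤ M * (σ ^ 2 * (j * η) ^ d) := by
              have : R ^ k ≤ M := by linarith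
              gcongr
      have h5 := hOne M z μ (s ^ 2) p (z - j * η) (Real.sqrt (j * η)) (by omega) (by positivity)
        hz hμ0 hp0 hp2 hmeas (Real.sqrt_pos.2 hjη) (by rw [hq2]; ring) (by rw [hq2]; exact h1)
        (by rw [hq2]; exact h2) hqM hvM
      refine (measure_mono fun V hV => hV.2).trans (h5.trans (ENNReal.ofReal_le_ofReal ?_))
      -- the estimate of the probability
      have h6 : (M : ℝ) ^ 7 ≤ 13 ^ 7 * R ^ (7 * k) := by
        rw [mul_comm 7 k, pow_mul, ← mul_pow]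
        exact pow_le_pow_left₀ hM0.le hMR 7
      have h7 : 1 / (M : ℝ) ^ 9 ≤ 1 / R ^ (8 * k + 3) := by
        refine one_div_le_one_div_of_le (by positivity) ?_
        calc R ^ (8 * k + 3) ≤ R ^ (k * 9) := pow_le_pow_right₀ hR1 (by omega)
          _ = (R ^ k) ^ 9 := pow_mul _ _ _
          _ ≤ (M : ℝ) ^ 9 := pow_le_pow_left₀ hRk.le (by linarith) 9
      calc Co * (M : ℝ) ^ 7 * (p + 1 / (M : ℝ) ^ 9) ≤
            Co * (13 ^ 7 * R ^ (7 * k)) * (C0 * 13 ^ d / R ^ (8 * k + 3) + 1 / R ^ (8 * k + 3)) := by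
            gcongr
        _ = pj := by
            rw [hpj]
            field_simp
            ring
    · have : BS j = ∅ := by
        ext V
        simp [hBS, hcj]
      rw [this, measure_empty]
      exact zero_le
  set Bad : Set Ω := ((⋃ j ∈ Finset.range (L + 1), {ω | Vp ω ∈ BS j}) ∪
    (⋃ j ∈ Finset.range (L + 1), {ω | Vm ω ∈ BS j})) ∪ ({ω | Vp ω ∈ F0} ∪ {ω | Vm ω ∈ F0}) with hBad
  have hU : ∀ W : Ω → Tor d M → ℝ, (∀ S, P {ω | W ω ∈ S} ≤ gau d M (s ^ 2) S) →
      P (⋃ j ∈ Finset.range (L + 1), {ω | W ω ∈ BS j}) ≤ ENNReal.ofReal ((L + 1) * pj) := by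
    intro W hW
    refine (measure_biUnion_finset_le _ _).trans ?_
    refine (Finset.sum_le_sum fun j _ => (hW (BS j)).trans (hBSP j)).trans ?_
    rw [Finset.sum_const, Finset.card_range, nsmul_eq_mul,
      ENNReal.ofReal_mul (by positivity)]
    refine mul_le_mul_left ?_ _
    rw [show ((L : ℝ) + 1) = ((L + 1 : ℕ) : ℝ) by push_cast; ring, ENNReal.ofReal_natCast]
  have hBadP : P Bad ≤ ENNReal.ofReal (1 / R) := by
    have h1 := hU Vp fun S => (hVle S).1
    have h2 := hU Vm fun S => (hVle S).2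
    have h3 : P {ω | Vp ω ∈ F0} ≤ ENNReal.ofReal p := ((hVle F0).1).trans hmeas
    have h4 : P {ω | Vm ω ∈ F0} ≤ ENNReal.ofReal p := ((hVle F0).2).trans hmeas
    have h5 : 0 ≤ ((L : ℝ) + 1) * pj := by positivity
    refine (measure_union_le _ _).trans ((add_le_add (measure_union_le _ _)
      (measure_union_le _ _)).trans ((add_le_add (add_le_add h1 h2) (add_le_add h3 h4)).trans ?_))
    rw [← ENNReal.ofReal_add h5 h5, ← ENNReal.ofReal_add hp0 hp0,
      ← ENNReal.ofReal_add (by positivity) (by positivity)]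
    refine ENNReal.ofReal_le_ofReal ?_
    have h6 : ((L : ℝ) + 1) * pj ≤ 1 / (4 * R) := by
      have h7 : (L : ℝ) + 1 ≤ 3 * R ^ k := by linarith
      rw [hpj, mul_div_assoc', div_le_div_iff₀ (by positivity) (by positivity), one_mul]
      have h8 : 4 * Co * 13 ^ 7 * (C0 * 13 ^ d + 1) ≤ R := by
        have : 0 ≤ C0 * 13 ^ d * 4 := by positivity
        linarith
      calc ((L : ℝ) + 1) * (Co * 13 ^ 7 * (C0 * 13 ^ d + 1)) * (4 * R) =
            ((L : ℝ) + 1) * (4 * Co * 13 ^ 7 * (C0 * 13 ^ d + 1)) * R := by ring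
        _ ≤ (3 * R ^ k) * R * R := by gcongr
        _ ≤ R ^ k * R ^ 3 := by
            have h9 : 3 ≤ R := by
              have h10 : (3 : ℝ) ≤ R0 := by
                have h11 : (0 : ℝ) ≤ 4 * Co * 13 ^ 7 * (C0 * 13 ^ d + 1) + C0 * 13 ^ d * 4 := by
                  positivity
                linarith
              linarith
            calc (3 * R ^ k) * R * R = R ^ k * (3 * R ^ 2) := by ring
              _ ≤ R ^ k * (R * R ^ 2) := by gcongr
              _ = _ := by ring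
    have h7 : 1 / (4 * R ^ 2) ≤ 1 / (4 * R) / 2 := by
      rw [div_div]
      refine one_div_le_one_div_of_le (by positivity) ?_
      nlinarith
    have h8 : 1 / (4 * R) = (1 / R) / 4 := by
      rw [div_div, mul_comm]
    have h9 : 0 < 1 / R := by positivity
    linarith
  refine ⟨(toMeasurable P Bad)ᶜ, (measurableSet_toMeasurable _ _).compl, ?_, ?_⟩
  · rw [compl_compl, measure_toMeasurable]; exact hBadP
  intro ω hω
  have hωB : ω ∉ Bad := fun h => hω (subset_toMeasurable P Bad h)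
  rw [hBad, Set.mem_union, Set.mem_union, Set.mem_union, not_or, not_or, not_or] at hωB
  obtain ⟨⟨hω1, hω2⟩, hω3, hω4⟩ := hωB
  have hfp : FlatD δ z μ (fun x : Tor d M => (fun y => σ * ξ y ω) (rep x)) := by
    by_contra h; exact hω3 h
  have hfm : FlatD δ z μ (fun x : Tor d M => - (fun y => σ * ξ y ω) (rep x)) := by
    have h1 : FlatD δ z μ (Vm ω) := by
      by_contra h; exact hω4 h
    have e : (fun x : Tor d M => - (fun y => σ * ξ y ω) (rep x)) = Vm ω := by
      funext x; simp [hVm]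
    rw [e]; exact h1
  have hlp' : ∀ j < L + 1, cond j → LocB d M Co (σ ^ 2) (Real.sqrt (j * η)) (z - j * η)
      (fun x : Tor d M => (fun y => σ * ξ y ω) (rep x)) := by
    intro j hj hcj
    by_contra h
    refine hω1 ?_
    simp only [Set.mem_iUnion, Finset.mem_range]
    refine ⟨j, hj, ?_⟩
    change cond j ∧ ¬ LocB d M Co ((s ^ 2 : ℝ≥0) : ℝ) (Real.sqrt (j * η)) (z - j * η) (Vp ω)
    rw [hvv]
    exact ⟨hcj, h⟩
  have hlm' : ∀ j < L + 1, cond j → LocB d M Co (σ ^ 2) (Real.sqrt (j * η)) (z - j * η)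
      (fun x : Tor d M => (fun y => -(σ * ξ y ω)) (rep x)) := by
    intro j hj hcj
    by_contra h
    refine hω2 ?_
    simp only [Set.mem_iUnion, Finset.mem_range]
    refine ⟨j, hj, ?_⟩
    change cond j ∧ ¬ LocB d M Co ((s ^ 2 : ℝ≥0) : ℝ) (Real.sqrt (j * η)) (z - j * η) (Vm ω)
    rw [hvv]
    have e : (fun x : Tor d M => (fun y => -(σ * ξ y ω)) (rep x)) = Vm ω := by
      funext x; simp [hVm]
    rw [e] at h
    exact ⟨hcj, h⟩
  have hlogR0 : 0 ≤ Real.log R := by linarith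
  have hlogM : Real.log M ≤ (k + 4) * Real.log R := by
    have h1 : (M : ℝ) ≤ R ^ (k + 4) := by
      have h2 : (2 : ℝ) ^ 4 ≤ R ^ 4 := pow_le_pow_left₀ (by norm_num) hR 4
      calc (M : ℝ) ≤ 13 * R ^ k := hMR
        _ ≤ R ^ 4 * R ^ k := by
            have : (13 : ℝ) ≤ R ^ 4 := by linarith
            gcongr
        _ = R ^ (k + 4) := by rw [← pow_add]; congr 1; ring
    calc Real.log M ≤ Real.log (R ^ (k + 4)) := Real.log_le_log hM0 h1
      _ = (k + 4) * Real.log R := by rw [Real.log_pow]; push_cast; ring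
  constructor
  · intro E lam hlam hl1 hl2 f g hfg x ρ hx
    have hlt : 1 / t ≤ lam := le_trans (by gcongr) hl1
    have hlam0 : 0 < lam := lt_of_lt_of_le (by positivity) hlt
    have hlamR : 1 / R ≤ lam := (one_div_le_one_div_of_le ht0 htR).trans hlt
    have hq0 : 0 < Real.sqrt lam := Real.sqrt_pos.2 hlam0
    have hq2 : Real.sqrt lam ^ 2 = lam := Real.sq_sqrt hlam0.le
    have hqR : 1 ≤ R * Real.sqrt lam := by
      refine le_of_sq_le_sq ?_ (by positivity)
      rw [mul_pow, hq2, one_pow]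
      have h1 : 1 ≤ R * lam := by
        rw [div_le_iff₀ hRp] at hlamR
        linarith
      calc (1 : ℝ) ≤ R * lam := h1
        _ ≤ R ^ 2 * lam := by
            have : R ≤ R ^ 2 := le_self_pow₀ hR1 (by norm_num)
            gcongr
    by_cases hxL : ∀ i, |x i| + ρ ≤ L
    swap
    · push Not at hxL
      obtain ⟨i, hi⟩ := hxL
      refine concl_trivial hd hC1 hR hσ2 hσR2 hq0 hqR f g x ρ ?_
      have h1 : (L : ℝ) < |(x i : ℝ)| + ρ := by exact_mod_cast hi
      have h2 := hx i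
      have h3 : 2 * R ≤ R ^ k := by
        calc 2 * R ≤ R * R := by gcongr
          _ = R ^ 2 := by ring
          _ ≤ R ^ k := pow_le_pow_right₀ hR1 (by omega)
      rw [← hk]
      linarith
    -- the index of the energy
    set j : ℕ := ⌊lam / η⌋₊ with hj
    have hj1 : j * η ≤ lam := by
      have := Nat.floor_le (a := lam / η) (by positivity)
      rw [← hj, le_div_iff₀ hη0] at this
      exact this
    have hj2 : lam < j * η + η := by
      have := Nat.lt_floor_add_one (lam / η)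
      rw [← hj, div_lt_iff₀ hη0] at this
      linarith
    have hηle : η ≤ lam / 2 := by
      have h1 : η ≤ 1 / R ^ 2 := one_div_le_one_div_of_le (by positivity)
        (pow_le_pow_right₀ hR1 (by omega))
      have h2 : 1 / R ^ 2 ≤ 1 / R / 2 := by
        rw [div_div]
        refine one_div_le_one_div_of_le (by positivity) ?_
        nlinarith
      linarith
    have hj3 : lam / 2 ≤ j * η := by linarith
    have hjη : 0 < j * η := by linarith
    have hjL : j < L + 1 := by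
      have h1 : (j : ℝ) ≤ L := by
        have h2 : (j : ℝ) ≤ lam / η := Nat.floor_le (by positivity)
        have h3 : lam / η ≤ R ^ k := by
          rw [div_le_iff₀ hη0, hη, mul_one_div, div_self hRk.ne']
          linarith
        linarith
      have : j ≤ L := by exact_mod_cast h1
      omega
    have hcj : cond j := by
      constructor
      · refine le_trans ?_ hj3
        have h1 : 4 / μ ≤ 1 / t / 2 := by
          rw [div_div, div_le_div_iff₀ hμ0 (by positivity)]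
          linarith
        linarith
      · linarith
    have hq'0 : 0 < Real.sqrt (j * η) := Real.sqrt_pos.2 hjη
    have hq'2 : Real.sqrt (j * η) ^ 2 = j * η := Real.sq_sqrt hjη.le
    have hqq1 : Real.sqrt (j * η) ≤ 2 * Real.sqrt lam := by
      have := Real.sqrt_le_sqrt hj1
      linarith
    have hqq2 : Real.sqrt lam ≤ 2 * Real.sqrt (j * η) := by
      refine le_of_sq_le_sq ?_ (by positivity)
      rw [mul_pow, hq2, hq'2]
      linarith
    have hsmall : 4 * η ^ 2 + 8 * (d : ℝ) ^ 2 / (L : ℝ) ^ 2 ≤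
        (σ ^ 2) ^ 2 * Real.sqrt (j * η) ^ (2 * (d - 2)) := by
      rw [pow_mul, hq'2]
      have h1 : 1 / R ^ 2 ≤ j * η := by
        have h2 : 1 / R ^ 2 ≤ 1 / R / 2 := by
          rw [div_div]
          refine one_div_le_one_div_of_le (by positivity) ?_
          nlinarith
        linarith
      have h2 : 1 / R ^ 2 ≤ σ ^ 2 := by
        rw [div_le_iff₀ (by positivity)]
        linarith
      have h3 : 8 * (d : ℝ) ^ 2 / (L : ℝ) ^ 2 ≤ 8 * (d : ℝ) ^ 2 / (R ^ k) ^ 2 := by gcongr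
      have h4 : (d : ℝ) ^ 2 ≤ 4 ^ d := by
        have h5 : d ^ 2 ≤ 4 ^ d := by
          calc d ^ 2 ≤ (2 ^ d) ^ 2 := Nat.pow_le_pow_left (Nat.lt_two_pow_self).le 2
            _ = 4 ^ d := by rw [← pow_mul, mul_comm, pow_mul]; norm_num
        exact_mod_cast h5
      calc 4 * η ^ 2 + 8 * (d : ℝ) ^ 2 / (L : ℝ) ^ 2 ≤
            4 * η ^ 2 + 8 * (d : ℝ) ^ 2 / (R ^ k) ^ 2 := by gcongr
        _ = (4 + 8 * (d : ℝ) ^ 2) / (R ^ k) ^ 2 := by
            rw [hη]
            field_simp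
        _ ≤ 1 / R ^ (2 * d) := by
            rw [div_le_div_iff₀ (by positivity) (by positivity), one_mul, ← pow_mul]
            have h6 : (2 : ℝ) ^ (4 * d + 20) ≤ R ^ (4 * d + 20) := pow_le_pow_left₀ (by norm_num) hR _
            have h7 : 4 + 8 * (d : ℝ) ^ 2 ≤ 2 ^ (4 * d + 20) := by
              have h8 : (4 : ℝ) ^ d ≤ 2 ^ (4 * d) := by
                rw [show (4 : ℝ) = 2 ^ 2 by norm_num, ← pow_mul]
                exact pow_le_pow_right₀ (by norm_num) (by omega)
              have h9 : (1 : ℝ) ≤ 2 ^ (4 * d) := one_le_pow₀ (by norm_num)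
              rw [pow_add]
              nlinarith
            calc (4 + 8 * (d : ℝ) ^ 2) * R ^ (2 * d) ≤ R ^ (4 * d + 20) * R ^ (2 * d) := by
                  gcongr
                  linarith
              _ = R ^ (k * 2) := by
                  rw [← pow_add]
                  congr 1
                  omega
        _ = (1 / R ^ 2) ^ 2 * (1 / R ^ 2) ^ (d - 2) := by
            rw [← pow_add, _root_.one_div_pow, ← pow_mul]
            congr 2
            omega
        _ ≤ _ := by gcongr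
    have hEE : ∀ E' : ℝ, lam = z - E' → |E' - (z - j * η)| ≤ η := by
      intro E' hE'
      rw [abs_le]
      constructor <;> linarith
    have hfin : ∀ (W : Site d → ℝ) (E' : ℝ) (f' g' : L2 d), lam = z - E' →
        LocB d M Co (σ ^ 2) (Real.sqrt (j * η)) (z - j * η) (fun x : Tor d M => W (rep x)) →
        (∀ y, lap f' y + (W y : ℂ) * f' y - (E' : ℂ) * f' y = g' y) →
        Concl d C σ R (Real.sqrt lam) f' g' x ρ := by
      intro W E' f' g' hE' hloc hfg'
      have h1 := transfer hT hd hL1 le_rfl hCo hσ2 hq0 hq'0 hqq1 hqq2 (hEE E' hE') hsmall hloc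
        hfg' x ρ hxL
      unfold Concl
      refine h1.trans ?_
      have h2 : Real.log M ^ (d + 5) ≤ (k + 4) ^ (d + 5) * Real.log R ^ (d + 5) := by
        rw [← mul_pow]
        exact pow_le_pow_left₀ (Real.log_natCast_nonneg M) hlogM _
      have h3 : 0 ≤ ‖f'‖ ^ 2 + ‖g'‖ ^ 2 / ((σ ^ 2) ^ 2 * Real.sqrt lam ^ (2 * (d - 2))) := by
        positivity
      refine mul_le_mul_of_nonneg_right ?_ h3
      calc 16 ^ d * Co * σ ^ 2 * Real.log M ^ (d + 5) * Real.sqrt lam ^ (d - 3) *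
            (ρ + 1 / Real.sqrt lam) ≤
            16 ^ d * Co * σ ^ 2 * ((k + 4) ^ (d + 5) * Real.log R ^ (d + 5)) *
              Real.sqrt lam ^ (d - 3) * (ρ + 1 / Real.sqrt lam) := by gcongr
        _ = (16 ^ d * Co * (k + 4) ^ (d + 5)) * Real.log R ^ (d + 5) * σ ^ 2 *
              Real.sqrt lam ^ (d - 3) * (ρ + 1 / Real.sqrt lam) := by ring
        _ ≤ _ := by
            have h4 : 16 ^ d * Co * (k + 4) ^ (d + 5) ≤ C := by
              rw [hC]
              have : 0 ≤ 2 + 2 * C0 + Cc := by positivity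
              linarith
            gcongr
    rcases le_total 0 E with hE | hE
    · rw [abs_of_nonneg hE] at hlam
      exact hfin (fun y => σ * ξ y ω) E f g hlam (hlp' j hjL hcj) hfg
    · rw [abs_of_nonpos hE] at hlam
      have h1 := hfin (fun y => -(σ * ξ y ω)) (-E) (stg f) (-stg g) hlam (hlm' j hjL hcj)
        (fun y => stg_eq hfg y)
      unfold Concl at h1 ⊢
      simp only [norm_stg_apply, norm_neg, norm_stg] at h1
      exact h1
  · intro x₀ L' hL' hH
    have hL'' : ∀ i, |x₀ i| + (L' : ℤ) ≤ L := by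
      intro i
      have h1 : |(x₀ i : ℝ)| + L' ≤ (L : ℝ) := (hL' i).trans (hRRk.trans hLR)
      exact_mod_cast h1
    have hfp' := hfp.toFlat hμ0.le hδ'
    have hfm' := hfm.toFlat hμ0.le hδ'
    obtain ⟨he1, he2⟩ := hEdge d M (by omega) L (by omega) z μ (fun y => σ * ξ y ω) hμ0 x₀ L' hL'' hH
    refine ⟨fun i => abs_lt.2 ⟨he2 hfm' i, he1 hfp' i⟩, ?_⟩
    intro lam hl1 hl2 hlL
    have h10 : 10 / μ ≤ lam := by
      refine le_trans ?_ hl1
      rw [div_le_div_iff₀ hμ0 ht0]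
      have h11 : 2 ≤ C := by
        rw [hC]
        have : 0 ≤ 2 * C0 + Cc + 16 ^ d * Co * (k + 4) ^ (d + 5) := by positivity
        linarith
      have h12 : 2 * μ ≤ C * μ := by gcongr
      linarith
    have hCcC : Cc ≤ C := by
      rw [hC]
      have : 0 ≤ 2 + 2 * C0 + 16 ^ d * Co * (k + 4) ^ (d + 5) := by positivity
      linarith
    have h3 := hCnt M L (by omega) z μ (fun y => σ * ξ y ω) hμ0 hfp' x₀ L' hL'' hH lam h10 hl2
      (hCcC.trans hlL)
    refine h3.trans ?_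
    gcongr

end Pool.Agent.IR
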