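import Pool.Agent.Helper41_IR.Stmts

/-!
# IR: one energy on the torus
-/

set_option autoImplicit false

open MeasureTheory ProbabilityTheory

open scoped ENNReal NNReal BigOperators

noncomputable section

namespace Pool.Agent.IR

open Matrix Pool.Agent.Anderson Pool.Agent.Loc Pool.Agent.BED

/-- the local mass bound at the energy `E`, `q = √(z - E)` -/
def LocB (d M : ℕ) [NeZero M] (C v q E : ℝ) (V : Tor d M → ℝ) : Prop :=
  ∀ u r : Tor d M → ℝ, AM E V *ᵥ u = r → ∀ (x0 : Tor d M) (ρ : ℕ),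
    ∑ x, (if ∀ i, ((x i - x0 i).valMinAbs).natAbs ≤ ρ then u x ^ 2 else 0) ≤
      C * v * Real.log M ^ (d + 5) * q ^ (d - 3) * (ρ + 1 / q) *
        (sqn u + sqn r / (v ^ 2 * q ^ (2 * (d - 2))))

/-- one energy on the torus -/
def OneStmt : Prop := ∀ d : ℕ, 3 ≤ d → ∀ K : ℕ, ∃ cs δ C : ℝ, 0 < cs ∧ cs ≤ 1 ∧ 0 < δ ∧
  δ ≤ 1 / 50 ∧ 0 < C ∧
    ∀ (M : ℕ) [NeZero M] (z μ : ℝ) (v : ℝ≥0) (p E q : ℝ), 3 ≤ M → 0 < v → z ≤ 2 * d + 1 → 0 < μ →
      0 ≤ p → p ≤ 1 / 2 → gau d M v (Gd d M δ z μ)ᶜ ≤ ENNReal.ofReal p → 0 < q → z - E = q ^ 2 →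
      4 / μ ≤ q ^ 2 → q ^ 2 ≤ cs → 1 / q ^ 2 ≤ M → 1 / (v * q ^ (2 * d)) ≤ M →
        gau d M v {V | ¬ LocB d M C v q E V} ≤
          ENNReal.ofReal (C * (M : ℝ) ^ 7 * (p + 1 / (M : ℝ) ^ K))

theorem one_le_log {M : ℕ} (hM : 3 ≤ M) : 1 ≤ Real.log M := by
  rw [Real.le_log_iff_exp_le (by positivity)]
  have := Real.exp_one_lt_d9
  have h3 : (3 : ℝ) ≤ M := by exact_mod_cast hM
  linarith

/-- the condition at zero momentum -/
theorem zero_cond {d l : ℕ} (hd : 3 ≤ d) (hl : 1 ≤ l) {cs lam μ : ℝ} (hcs : 0 < cs)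
    (hcsd : cs ≤ 1 / (10 * d)) (hlam : 0 < lam) (hμ : 0 < μ) (h4 : 4 / μ ≤ lam)
    (hl1 : lam * (l : ℝ) ^ 2 ≤ cs) (hl2 : cs ≤ 4 * (lam * (l : ℝ) ^ 2)) :
    1 + cs / 20 ≤ (1 - 4 * (cs / 400)) * (sL d l / (sL d l - lam + 1 / μ)) := by
  have hd0 : (3 : ℝ) ≤ d := by exact_mod_cast hd
  have hl0 : (1 : ℝ) ≤ l := by exact_mod_cast hl
  have hl2p : (0 : ℝ) < (l : ℝ) ^ 2 := by positivity
  have hcs1 : cs ≤ 1 / 30 := hcsd.trans (by
    rw [div_le_div_iff₀ (by positivity) (by norm_num)]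
    linarith)
  have hs : 0 < sL d l := by unfold sL; positivity
  have hsl : sL d l * (l : ℝ) ^ 2 = 2 / d := by
    unfold sL
    field_simp
  have hdcs : d * cs ≤ 1 / 10 := by
    rw [le_div_iff₀ (by positivity)] at hcsd
    linarith
  -- `lam ≤ s / 20`
  have hlams : lam ≤ sL d l / 20 := by
    have h1 : lam * (l : ℝ) ^ 2 ≤ (sL d l / 20) * (l : ℝ) ^ 2 := by
      have : (sL d l / 20) * (l : ℝ) ^ 2 = (2 / d) / 20 := by rw [← hsl]; ring
      rw [this]
      refine hl1.trans (hcsd.trans (le_of_eq ?_))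
      field_simp
      norm_num
    exact le_of_mul_le_mul_right h1 hl2p
  have hinv : 1 / μ ≤ lam / 4 := by
    have : 4 / μ = 4 * (1 / μ) := by ring
    linarith
  have hden : 0 < sL d l - lam + 1 / μ := by
    have : 0 < 1 / μ := by positivity
    linarith
  -- `s / (s - lam + 1/μ) ≥ 1 + (3/4) lam / s`
  have h1 : 1 + (3 / 4) * lam / sL d l ≤ sL d l / (sL d l - lam + 1 / μ) := by
    rw [le_div_iff₀ hden]
    have h2 : sL d l - lam + 1 / μ ≤ sL d l - (3 / 4) * lam := by linarith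
    have h3 : 0 ≤ 1 + (3 / 4) * lam / sL d l := by positivity
    calc (1 + (3 / 4) * lam / sL d l) * (sL d l - lam + 1 / μ) ≤
          (1 + (3 / 4) * lam / sL d l) * (sL d l - (3 / 4) * lam) :=
          mul_le_mul_of_nonneg_left h2 h3
      _ = sL d l - ((3 / 4) * lam) ^ 2 / sL d l := by
          field_simp
          ring
      _ ≤ sL d l := by
          have : 0 ≤ ((3 / 4) * lam) ^ 2 / sL d l := by positivity
          linarith
  -- `lam / s ≥ d cs / 8`
  have h2 : 3 * cs / 8 ≤ lam / sL d l := by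
    rw [le_div_iff₀ hs]
    have h3 : 3 * cs / 8 * sL d l * (l : ℝ) ^ 2 ≤ lam * (l : ℝ) ^ 2 := by
      rw [mul_assoc, hsl]
      have : 3 * cs / 8 * (2 / (d : ℝ)) ≤ cs / 4 := by
        rw [mul_div_assoc', div_le_iff₀ (by positivity)]
        nlinarith
      linarith
    exact le_of_mul_le_mul_right h3 hl2p
  have h3 : 1 + 9 * cs / 32 ≤ sL d l / (sL d l - lam + 1 / μ) := by
    have : (3 / 4) * lam / sL d l = (3 / 4) * (lam / sL d l) := by ring
    rw [this] at h1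
    linarith
  have h4 : 0 ≤ 1 - 4 * (cs / 400) := by linarith
  refine le_trans ?_ (mul_le_mul_of_nonneg_left h3 h4)
  nlinarith

theorem one_of (hMean : MeanStmt) (hKb : KbndStmt) (hAvg : AvgStmt) (hCore : CoreStmt) :
    OneStmt := by
  intro d hd K
  have hd1 : 1 ≤ d := by omega
  have hd0 : (3 : ℝ) ≤ d := by exact_mod_cast hd
  obtain ⟨Cm, hCm, hMean⟩ := hMean d hd1
  obtain ⟨γ0, hγ0, hKb⟩ := hKb d hd1 Cm hCm
  set cs : ℝ := min (γ0 / (4 * d)) (1 / (10 * d)) with hcsdef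
  have hcs : 0 < cs := lt_min (by positivity) (by positivity)
  have hcs1 : cs ≤ γ0 / (4 * d) := min_le_left _ _
  have hcs2 : cs ≤ 1 / (10 * d) := min_le_right _ _
  have hcs3 : cs ≤ 1 / 30 := hcs2.trans (by
    rw [div_le_div_iff₀ (by positivity) (by norm_num)]
    linarith)
  obtain ⟨ε0, Cb, hε0, hε0', hCb, hKb⟩ := hKb (cs / 20) (by positivity)
  obtain ⟨Ca, hCa, hAvg⟩ := hAvg d hd1 K
  obtain ⟨Cc, hCc, hCore⟩ := hCore d hd1
  -- constants
  set Ce : ℝ := max 1 (Ca * Cb) with hCe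
  have hCe1 : 1 ≤ Ce := le_max_left _ _
  have hCe2 : Ca * Cb ≤ Ce := le_max_right _ _
  set s : ℝ := Real.sqrt cs with hs
  have hs0 : 0 < s := Real.sqrt_pos.2 hcs
  have hs2 : s ^ 2 = cs := Real.sq_sqrt hcs.le
  have hs1 : s ≤ 1 := by
    rw [← sq_le_one_iff₀ hs0.le, hs2]
    linarith
  set C1 : ℝ := Ce * (2 / s) ^ (d - 3) / ε0 with hC1
  set C2 : ℝ := Cc * Cb * Ce * (2 / s) ^ (d - 3) with hC2
  have hC1p : 0 < C1 := by positivity
  have hC2p : 0 < C2 := by positivity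
  refine ⟨cs, cs / 400, max Ca (max C1 C2), hcs, by linarith, by positivity, by linarith,
    lt_max_of_lt_left hCa, ?_⟩
  intro M _ z μ v p E q hM hv hz hμ hp hp2 hG hq hzE h4 hqcs hqM hvM
  set C : ℝ := max Ca (max C1 C2) with hC
  have hCCa : Ca ≤ C := le_max_left _ _
  have hCC1 : C1 ≤ C := (le_max_left _ _).trans (le_max_right _ _)
  have hCC2 : C2 ≤ C := (le_max_right _ _).trans (le_max_right _ _)
  have hC0 : 0 < C := hCa.trans_le hCCa
  have hM3 : (3 : ℝ) ≤ M := by exact_mod_cast hM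
  have hM0 : (0 : ℝ) < M := by linarith
  have hlog : 1 ≤ Real.log M := one_le_log hM
  have hv0 : (0 : ℝ) < v := by exact_mod_cast hv
  have hq1 : q ≤ 1 := by
    rw [← sq_le_one_iff₀ hq.le]
    linarith
  -- the scale
  set a : ℝ := s / q with ha
  have ha1 : 1 ≤ a := by
    rw [ha, le_div_iff₀ hq, one_mul]
    refine le_of_sq_le_sq ?_ hs0.le
    rw [hs2]
    exact hqcs
  set l : ℕ := ⌊a⌋₊ with hl
  have hl1 : 1 ≤ l := by
    rw [hl]
    exact Nat.le_floor (by exact_mod_cast ha1)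
  have hla : (l : ℝ) ≤ a := Nat.floor_le (by linarith)
  have hal : a ≤ 2 * l := by
    have h1 := Nat.lt_floor_add_one a
    have h2 : (1 : ℝ) ≤ l := by exact_mod_cast hl1
    rw [← hl] at h1
    linarith
  have hl0 : (0 : ℝ) < l := by exact_mod_cast hl1
  have hl1' : (1 : ℝ) ≤ l := by exact_mod_cast hl1
  have haq : a * q = s := by rw [ha]; field_simp
  have hlq : (l : ℝ) * q ≤ s := by
    rw [← haq]
    exact mul_le_mul_of_nonneg_right hla hq.le
  have hlq2 : q ^ 2 * (l : ℝ) ^ 2 ≤ cs := by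
    rw [← hs2, ← mul_pow, mul_comm q]
    exact pow_le_pow_left₀ (by positivity) hlq 2
  have hslq : s ≤ 2 * l * q := by
    rw [← haq]
    exact mul_le_mul_of_nonneg_right hal hq.le
  have hlq3 : cs ≤ 4 * (q ^ 2 * (l : ℝ) ^ 2) := by
    rw [← hs2]
    calc s ^ 2 ≤ (2 * l * q) ^ 2 := pow_le_pow_left₀ hs0.le hslq 2
      _ = _ := by ring
  have hlM : l < M := by
    have h1 : (l : ℝ) ^ 2 < (M : ℝ) ^ 2 := by
      have h2 : (l : ℝ) ^ 2 ≤ cs / q ^ 2 := by
        rw [le_div_iff₀ (by positivity)]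
        linarith
      calc (l : ℝ) ^ 2 ≤ cs / q ^ 2 := h2
        _ = cs * (1 / q ^ 2) := by ring
        _ ≤ cs * M := mul_le_mul_of_nonneg_left hqM hcs.le
        _ < (M : ℝ) ^ 2 := by nlinarith
    have h2 : (l : ℝ) < M := lt_of_pow_lt_pow_left₀ 2 hM0.le h1
    exact_mod_cast h2
  have hPar : Par d M l z μ E := by
    refine ⟨hd1, hM, hl1, hlM, hμ, hz, ?_, ?_⟩
    · rw [hzE]; positivity
    · rw [hzE]
      refine hlq2.trans (hcs2.trans ?_)
      gcongr
      norm_num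
  -- the resolution
  set ε : ℝ := Ce * v * Real.log M ^ (d + 3) * ((l : ℝ) ^ 4 / (l : ℝ) ^ d) with hε
  have hεp : 0 < ε := by positivity
  have hld : (l : ℝ) ^ 4 / (l : ℝ) ^ d = l / (l : ℝ) ^ (d - 3) := by
    obtain ⟨k, rfl⟩ : ∃ k, d = k + 3 := ⟨d - 3, by omega⟩
    rw [Nat.add_sub_cancel]
    field_simp
    ring
  -- `1 / l^(d-3) ≤ (2 q / s)^(d-3)`
  have hlinv : 1 / (l : ℝ) ^ (d - 3) ≤ (2 / s) ^ (d - 3) * q ^ (d - 3) := by
    rw [← mul_pow, ← _root_.one_div_pow]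
    refine pow_le_pow_left₀ (by positivity) ?_ _
    rw [div_le_iff₀ hl0]
    calc (1 : ℝ) = s / s := by field_simp
      _ ≤ 2 * l * q / s := by gcongr
      _ = _ := by ring
  have hlq' : (l : ℝ) ≤ 1 / q := by
    rw [le_div_iff₀ hq]
    exact hlq.trans hs1
  -- the trivial bound
  have htriv : ε0 < ε → ∀ V : Tor d M → ℝ, LocB d M C v q E V := by
    intro hεε V u r _ x0 ρ
    have h1 : ∑ x, (if ∀ i, ((x i - x0 i).valMinAbs).natAbs ≤ ρ then u x ^ 2 else 0) ≤ sqn u := by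
      refine Finset.sum_le_sum fun x _ => ?_
      split_ifs
      · exact le_rfl
      · positivity
    refine h1.trans ?_
    have h2 : ε ≤ Ce * v * Real.log M ^ (d + 5) * ((2 / s) ^ (d - 3) * q ^ (d - 3)) * (1 / q) := by
      rw [hε, hld]
      calc Ce * v * Real.log M ^ (d + 3) * (l / (l : ℝ) ^ (d - 3)) =
            Ce * v * Real.log M ^ (d + 3) * (1 / (l : ℝ) ^ (d - 3)) * l := by ring
        _ ≤ Ce * v * Real.log M ^ (d + 5) * ((2 / s) ^ (d - 3) * q ^ (d - 3)) * (1 / q) := by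
            gcongr
            · norm_num
    have h3 : 1 ≤ C * v * Real.log M ^ (d + 5) * q ^ (d - 3) * (ρ + 1 / q) := by
      have h4 : 1 ≤ C1 * v * Real.log M ^ (d + 5) * q ^ (d - 3) * (1 / q) := by
        calc (1 : ℝ) = ε0 / ε0 := by field_simp
          _ ≤ ε / ε0 := by gcongr
          _ ≤ (Ce * v * Real.log M ^ (d + 5) * ((2 / s) ^ (d - 3) * q ^ (d - 3)) * (1 / q)) / ε0 := by
              gcongr
          _ = _ := by rw [hC1]; ring
      refine h4.trans ?_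
      gcongr
      have : (0 : ℝ) ≤ ρ := by positivity
      linarith
    have h4 : 0 ≤ sqn r / ((v : ℝ) ^ 2 * q ^ (2 * (d - 2))) :=
      div_nonneg (sqn_nonneg r) (by positivity)
    calc sqn u ≤ 1 * (sqn u + sqn r / ((v : ℝ) ^ 2 * q ^ (2 * (d - 2)))) := by linarith
      _ ≤ _ := mul_le_mul_of_nonneg_right h3 (by
          have := sqn_nonneg u
          linarith)
  rcases lt_or_ge ε0 ε with hεε | hεε
  · have : {V : Tor d M → ℝ | ¬ LocB d M C v q E V} = ∅ := by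
      ext V
      simp [htriv hεε V]
    rw [this, measure_empty]
    exact zero_le
  have hε2 : ε ≤ 1 / 2 := hεε.trans hε0'
  -- `l ≤ ε M`
  have hlεM : (l : ℝ) ≤ ε * M := by
    rw [hε, hld]
    have h1 : (l : ℝ) ^ (d - 3) ≤ v * M := by
      calc (l : ℝ) ^ (d - 3) ≤ (1 / q) ^ (d - 3) := pow_le_pow_left₀ hl0.le hlq' _
        _ ≤ (1 / q) ^ (2 * d) := by
            refine pow_le_pow_right₀ ?_ (by omega)
            rw [le_div_iff₀ hq]
            linarith
        _ = v * (1 / (v * q ^ (2 * d))) := by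
            rw [_root_.one_div_pow]
            field_simp
        _ ≤ v * M := mul_le_mul_of_nonneg_left hvM hv0.le
    have h2 : (1 : ℝ) ≤ Ce * v * Real.log M ^ (d + 3) * (1 / (l : ℝ) ^ (d - 3)) * M := by
      have h3 : (1 : ℝ) ≤ v * M * (1 / (l : ℝ) ^ (d - 3)) := by
        rw [mul_one_div, le_div_iff₀ (by positivity), one_mul]
        exact h1
      have h5 : (1 : ℝ) ≤ Ce * Real.log M ^ (d + 3) := one_le_mul_of_one_le_of_one_le hCe1
        (one_le_pow₀ hlog)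
      calc (1 : ℝ) ≤ (v * M * (1 / (l : ℝ) ^ (d - 3))) * (Ce * Real.log M ^ (d + 3)) :=
            one_le_mul_of_one_le_of_one_le h3 h5
        _ = _ := by ring
    calc (l : ℝ) = l * 1 := by ring
      _ ≤ l * (Ce * v * Real.log M ^ (d + 3) * (1 / (l : ℝ) ^ (d - 3)) * M) :=
          mul_le_mul_of_nonneg_left h2 hl0.le
      _ = _ := by ring
  -- the mean
  have hPG : gau d M v (Gd d M (cs / 400) z μ) ≠ 0 := by
    intro h0
    have hun : gau d M v Set.univ ≤ gau d M v (Gd d M (cs / 400) z μ) +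
        gau d M v (Gd d M (cs / 400) z μ)ᶜ := by
      rw [← Set.union_compl_self (Gd d M (cs / 400) z μ)]
      exact measure_union_le _ _
    have h1 : gau d M v Set.univ = 1 := by
      unfold gau
      exact measure_univ
    rw [h1, h0, zero_add] at hun
    have h2 := hun.trans hG
    have h3 : ENNReal.ofReal p < 1 := by
      rw [ENNReal.ofReal_lt_one]
      linarith
    exact absurd (lt_of_le_of_lt h2 h3) (lt_irrefl _)
  obtain ⟨hb, hSym⟩ := hMean M l z μ E (cs / 400) v hPar (by positivity) (by linarith) hPG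
  have hSym1 := hSym (cs / 20) (by
    rw [hzE]
    exact zero_cond hd hl1 hcs hcs2 (by positivity) hμ h4 hlq2 hlq3)
  set b : Tor d M → ℝ := bbar v (cs / 400) z μ l E with hbdef
  have hγ : d * ((z - E) * (l : ℝ) ^ 2 + 4 * d * (cs / 400) ^ 2) ≤ γ0 := by
    have h1 : d * cs ≤ γ0 / 4 := by
      rw [le_div_iff₀ (by positivity)] at hcs1
      linarith
    have h2 : (d : ℝ) * cs ≤ 1 / 10 := by
      rw [le_div_iff₀ (by positivity)] at hcs2
      linarith
    rw [hzE]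
    have h3 : (d : ℝ) * (q ^ 2 * (l : ℝ) ^ 2) ≤ d * cs := mul_le_mul_of_nonneg_left hlq2 (by positivity)
    have h5 : (d : ℝ) * (4 * d * (cs / 400) ^ 2) ≤ d * cs := by
      have : (d : ℝ) * (4 * d * (cs / 400) ^ 2) = (d * cs) * (d * cs) / 40000 := by ring
      rw [this]
      have h6 : 0 ≤ (d : ℝ) * cs := by positivity
      nlinarith
    calc (d : ℝ) * (q ^ 2 * (l : ℝ) ^ 2 + 4 * d * (cs / 400) ^ 2) =
          (d : ℝ) * (q ^ 2 * (l : ℝ) ^ 2) + (d : ℝ) * (4 * d * (cs / 400) ^ 2) := by ring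
      _ ≤ d * cs + d * cs := add_le_add h3 h5
      _ ≤ γ0 := by linarith
  have hγ' : 0 ≤ d * ((z - E) * (l : ℝ) ^ 2 + 4 * d * (cs / 400) ^ 2) := by
    rw [hzE]
    positivity
  obtain ⟨hBox, hGen⟩ := hKb M l b _ ε hl1 hεp hεε hlεM hγ' hγ hSym1
  have heven := hSym1.even
  have hlogε : Real.log (1 / ε) ≤ Real.log M := by
    refine Real.log_le_log (by positivity) ?_
    rw [div_le_iff₀ hεp]
    calc (1 : ℝ) ≤ l := hl1'
      _ ≤ ε * M := hlεM
      _ = M * ε := by ring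
  have hlogε0 : 0 < Real.log (1 / ε) := by
    refine Real.log_pos ?_
    rw [lt_div_iff₀ hεp]
    linarith
  -- the probability
  have hA := hAvg M l z μ E (cs / 400) v b ε Cb p hPar (by positivity) (by linarith) hv heven hb
    hεp hε2 hlεM hCb hGen (by
      calc Ca * Cb * v * Real.log M ^ (d + 2) * Real.log (1 / ε) * (l : ℝ) ^ 4 ≤
            Ce * v * Real.log M ^ (d + 2) * Real.log M * (l : ℝ) ^ 4 := by gcongr
        _ = ε * (l : ℝ) ^ d := by
            rw [hε]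
            field_simp
            ring) hp hp2 hG
  refine (measure_mono ?_).trans (hA.trans (ENNReal.ofReal_le_ofReal ?_))
  · intro V hV hcon
    refine hV ?_
    obtain ⟨hflat, hcl⟩ := hcon
    have hflat' : FlatD (1 / 50) z μ V := hflat.mono hμ.le (by linarith)
    intro u r hur x0 ρ
    refine (hCore M l z μ E V b ε Cb hPar hflat' heven hεp hε2 hlεM hCb hBox hcl u r hur x0 ρ).trans
      ?_
    have h1 : ε * Real.log (1 / ε) * (ρ / l + Real.log M) ≤
        Ce * v * Real.log M ^ (d + 5) * ((2 / s) ^ (d - 3) * q ^ (d - 3)) * (ρ + 1 / q) := by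
      have h2 : (ρ : ℝ) / l + Real.log M ≤ Real.log M * ((ρ + l) / l) := by
        have h3 : (ρ : ℝ) / l ≤ Real.log M * (ρ / l) :=
          le_mul_of_one_le_left (by positivity) hlog
        have h5 : Real.log M * ((ρ + l) / l) = Real.log M * (ρ / l) + Real.log M := by
          field_simp
        linarith
      calc ε * Real.log (1 / ε) * (ρ / l + Real.log M) ≤
            ε * Real.log M * (Real.log M * ((ρ + l) / l)) := by gcongr
        _ = Ce * v * Real.log M ^ (d + 5) * (1 / (l : ℝ) ^ (d - 3)) * (ρ + l) := by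
            rw [hε, hld]
            field_simp
            ring
        _ ≤ _ := by gcongr
    have h2 : (l : ℝ) ^ 4 * sqn r / ε ^ 2 ≤ sqn r / ((v : ℝ) ^ 2 * q ^ (2 * (d - 2))) := by
      have h3 : (l : ℝ) ^ 4 / ε ^ 2 ≤ 1 / ((v : ℝ) ^ 2 * q ^ (2 * (d - 2))) := by
        rw [div_le_div_iff₀ (by positivity) (by positivity), one_mul]
        have h5 : (l : ℝ) ^ 4 * q ^ (2 * (d - 2)) ≤ ((l : ℝ) ^ 4 / (l : ℝ) ^ d) ^ 2 := by
          obtain ⟨k, rfl⟩ : ∃ k, d = k + 3 := ⟨d - 3, by omega⟩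
          have e1 : ((l : ℝ) ^ 4 / (l : ℝ) ^ (k + 3)) ^ 2 = (l : ℝ) ^ 4 / (l : ℝ) ^ (2 * (k + 1)) := by
            field_simp
            ring
          rw [e1, show k + 3 - 2 = k + 1 by omega, le_div_iff₀ (by positivity), mul_assoc,
            ← mul_pow]
          refine mul_le_of_le_one_right (by positivity) (pow_le_one₀ (by positivity) ?_)
          rw [mul_comm]
          exact hlq.trans hs1
        calc (l : ℝ) ^ 4 * ((v : ℝ) ^ 2 * q ^ (2 * (d - 2))) =
              (v : ℝ) ^ 2 * ((l : ℝ) ^ 4 * q ^ (2 * (d - 2))) := by ring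
          _ ≤ (v : ℝ) ^ 2 * ((l : ℝ) ^ 4 / (l : ℝ) ^ d) ^ 2 := by gcongr
          _ = 1 * ((v : ℝ) * 1 * ((l : ℝ) ^ 4 / (l : ℝ) ^ d)) ^ 2 := by ring
          _ ≤ 1 * ((v : ℝ) * (Ce * Real.log M ^ (d + 3)) * ((l : ℝ) ^ 4 / (l : ℝ) ^ d)) ^ 2 := by
              gcongr
              exact one_le_mul_of_one_le_of_one_le hCe1 (one_le_pow₀ hlog)
          _ = ε ^ 2 := by rw [hε]; ring
      calc (l : ℝ) ^ 4 * sqn r / ε ^ 2 = ((l : ℝ) ^ 4 / ε ^ 2) * sqn r := by ring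
        _ ≤ (1 / ((v : ℝ) ^ 2 * q ^ (2 * (d - 2)))) * sqn r :=
            mul_le_mul_of_nonneg_right h3 (sqn_nonneg r)
        _ = _ := by ring
    have h3 : 0 ≤ sqn u + (l : ℝ) ^ 4 * sqn r / ε ^ 2 :=
      add_nonneg (sqn_nonneg u) (div_nonneg (mul_nonneg (by positivity) (sqn_nonneg r)) (by positivity))
    calc Cc * Cb * ε * Real.log (1 / ε) * (ρ / l + Real.log M) *
          (sqn u + (l : ℝ) ^ 4 * sqn r / ε ^ 2) =
          Cc * Cb * (ε * Real.log (1 / ε) * (ρ / l + Real.log M)) *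
            (sqn u + (l : ℝ) ^ 4 * sqn r / ε ^ 2) := by ring
      _ ≤ Cc * Cb * (Ce * v * Real.log M ^ (d + 5) * ((2 / s) ^ (d - 3) * q ^ (d - 3)) *
            (ρ + 1 / q)) * (sqn u + sqn r / ((v : ℝ) ^ 2 * q ^ (2 * (d - 2)))) := by
          gcongr
      _ = C2 * v * Real.log M ^ (d + 5) * q ^ (d - 3) * (ρ + 1 / q) *
            (sqn u + sqn r / ((v : ℝ) ^ 2 * q ^ (2 * (d - 2)))) := by
          rw [hC2]; ring
      _ ≤ _ := by
          have h5 : 0 ≤ sqn u + sqn r / ((v : ℝ) ^ 2 * q ^ (2 * (d - 2))) :=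
            add_nonneg (sqn_nonneg u) (div_nonneg (sqn_nonneg r) (by positivity))
          gcongr
  · have h1 : 0 ≤ p + 1 / (M : ℝ) ^ K := by positivity
    gcongr

end Pool.Agent.IR
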