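import Pool.Agent.Helper41_IR.Base

/-!
# IR: the phases, and simple consequences of flatness
-/

set_option autoImplicit false

open MeasureTheory ProbabilityTheory

open scoped ENNReal NNReal BigOperators

noncomputable section

namespace Pool.Agent.IR

open Matrix Pool.Agent.Anderson Pool.Agent.Loc Pool.Agent.BED

variable {d M : ℕ}

/-- the phase for arbitrary integer representatives -/
def phI (M : ℕ) (a b : Fin d → ℤ) : ℝ := 2 * Real.pi * (∑ i, (a i : ℝ) * (b i : ℝ)) / M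

theorem ph_eq_phI (θ x : Tor d M) :
    ph θ x = phI M (fun i => (θ i).valMinAbs) (fun i => (x i).valMinAbs) := rfl

/-- the phases for different representatives differ by a multiple of `2π` -/
theorem exists_phI [NeZero M] {a a' b b' : Fin d → ℤ} (ha : ∀ i, (a i : ZMod M) = (a' i : ZMod M))
    (hb : ∀ i, (b i : ZMod M) = (b' i : ZMod M)) :
    ∃ k : ℤ, phI M a b = phI M a' b' + k * (2 * Real.pi) := by
  have h : ((∑ i, a i * b i : ℤ) : ZMod M) = ((∑ i, a' i * b' i : ℤ) : ZMod M) := by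
    push_cast
    exact Finset.sum_congr rfl fun i _ => by rw [ha, hb]
  obtain ⟨k, hk⟩ := (ZMod.intCast_eq_intCast_iff_dvd_sub _ _ _).1 h.symm
  refine ⟨k, ?_⟩
  have hM : (M : ℝ) ≠ 0 := by exact_mod_cast NeZero.ne M
  have hk' : (∑ i, (a i : ℝ) * (b i : ℝ)) = (∑ i, (a' i : ℝ) * (b' i : ℝ)) + M * k := by
    have : (∑ i, a i * b i : ℤ) = (∑ i, a' i * b' i) + M * k := by linarith
    have h2 : ((∑ i, a i * b i : ℤ) : ℝ) = ((∑ i, a' i * b' i + M * k : ℤ) : ℝ) := by rw [this]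
    push_cast at h2
    exact h2
  unfold phI
  rw [hk']
  field_simp

theorem cos_phI_congr [NeZero M] {a a' b b' : Fin d → ℤ}
    (ha : ∀ i, (a i : ZMod M) = (a' i : ZMod M)) (hb : ∀ i, (b i : ZMod M) = (b' i : ZMod M)) :
    Real.cos (phI M a b) = Real.cos (phI M a' b') := by
  obtain ⟨k, hk⟩ := exists_phI ha hb
  rw [hk, Real.cos_add_int_mul_two_pi]

theorem sin_phI_congr [NeZero M] {a a' b b' : Fin d → ℤ}
    (ha : ∀ i, (a i : ZMod M) = (a' i : ZMod M)) (hb : ∀ i, (b i : ZMod M) = (b' i : ZMod M)) :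
    Real.sin (phI M a b) = Real.sin (phI M a' b') := by
  obtain ⟨k, hk⟩ := exists_phI ha hb
  rw [hk, Real.sin_add_int_mul_two_pi]

/-- `cos (ph θ x)` for arbitrary integer representatives -/
theorem cos_ph_of [NeZero M] {θ x : Tor d M} {a b : Fin d → ℤ} (ha : ∀ i, (a i : ZMod M) = θ i)
    (hb : ∀ i, (b i : ZMod M) = x i) : Real.cos (ph θ x) = Real.cos (phI M a b) := by
  rw [ph_eq_phI]
  refine cos_phI_congr (fun i => ?_) fun i => ?_
  · rw [ha, ZMod.coe_valMinAbs]
  · rw [hb, ZMod.coe_valMinAbs]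

theorem sin_ph_of [NeZero M] {θ x : Tor d M} {a b : Fin d → ℤ} (ha : ∀ i, (a i : ZMod M) = θ i)
    (hb : ∀ i, (b i : ZMod M) = x i) : Real.sin (ph θ x) = Real.sin (phI M a b) := by
  rw [ph_eq_phI]
  refine sin_phI_congr (fun i => ?_) fun i => ?_
  · rw [ha, ZMod.coe_valMinAbs]
  · rw [hb, ZMod.coe_valMinAbs]

theorem ph_comm (θ x : Tor d M) : ph θ x = ph x θ := by
  unfold ph
  congr 2
  exact Finset.sum_congr rfl fun i _ => mul_comm _ _

theorem ph_zero_right (θ : Tor d M) : ph θ 0 = 0 := by unfold ph; simp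

theorem ph_zero_left (θ : Tor d M) : ph 0 θ = 0 := by unfold ph; simp

theorem phI_add_right (a b b' : Fin d → ℤ) :
    phI M a (fun i => b i + b' i) = phI M a b + phI M a b' := by
  unfold phI
  push_cast
  simp only [mul_add, Finset.sum_add_distrib, add_div]

theorem phI_neg_right (a b : Fin d → ℤ) : phI M a (fun i => -b i) = -phI M a b := by
  unfold phI
  push_cast
  simp only [mul_neg, Finset.sum_neg_distrib, neg_div]

theorem phI_neg_left (a b : Fin d → ℤ) : phI M (fun i => -a i) b = -phI M a b := by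
  unfold phI
  push_cast
  simp only [neg_mul, Finset.sum_neg_distrib, mul_neg, neg_div]

theorem phI_mul_left (n : ℤ) (a b : Fin d → ℤ) : phI M (fun i => n * a i) b = n * phI M a b := by
  unfold phI
  push_cast
  simp only [mul_assoc, ← Finset.mul_sum]
  ring

theorem cos_ph_add [NeZero M] (θ x y : Tor d M) :
    Real.cos (ph θ (x + y)) = Real.cos (ph θ x + ph θ y) := by
  rw [cos_ph_of (a := fun i => (θ i).valMinAbs)
    (b := fun i => (x i).valMinAbs + (y i).valMinAbs) (fun i => ZMod.coe_valMinAbs _)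
    (fun i => by push_cast [ZMod.coe_valMinAbs]; rfl), phI_add_right]
  rfl

theorem sin_ph_add [NeZero M] (θ x y : Tor d M) :
    Real.sin (ph θ (x + y)) = Real.sin (ph θ x + ph θ y) := by
  rw [sin_ph_of (a := fun i => (θ i).valMinAbs)
    (b := fun i => (x i).valMinAbs + (y i).valMinAbs) (fun i => ZMod.coe_valMinAbs _)
    (fun i => by push_cast [ZMod.coe_valMinAbs]; rfl), phI_add_right]
  rfl

theorem cos_ph_neg [NeZero M] (θ x : Tor d M) : Real.cos (ph θ (-x)) = Real.cos (ph θ x) := by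
  rw [cos_ph_of (a := fun i => (θ i).valMinAbs) (b := fun i => -(x i).valMinAbs)
    (fun i => ZMod.coe_valMinAbs _) (fun i => by push_cast [ZMod.coe_valMinAbs]; rfl),
    phI_neg_right, Real.cos_neg]
  rfl

theorem sin_ph_neg [NeZero M] (θ x : Tor d M) : Real.sin (ph θ (-x)) = -Real.sin (ph θ x) := by
  rw [sin_ph_of (a := fun i => (θ i).valMinAbs) (b := fun i => -(x i).valMinAbs)
    (fun i => ZMod.coe_valMinAbs _) (fun i => by push_cast [ZMod.coe_valMinAbs]; rfl),
    phI_neg_right, Real.sin_neg]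
  rfl

theorem cos_ph_neg_left [NeZero M] (θ x : Tor d M) : Real.cos (ph (-θ) x) = Real.cos (ph θ x) := by
  rw [ph_comm, cos_ph_neg, ph_comm]

theorem sin_ph_neg_left [NeZero M] (θ x : Tor d M) :
    Real.sin (ph (-θ) x) = -Real.sin (ph θ x) := by
  rw [ph_comm, sin_ph_neg, ph_comm]

theorem cos_ph_sub [NeZero M] (θ x y : Tor d M) :
    Real.cos (ph θ (x - y)) = Real.cos (ph θ x - ph θ y) := by
  rw [sub_eq_add_neg, cos_ph_add, Real.cos_add, cos_ph_neg, sin_ph_neg, Real.cos_sub]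
  ring

theorem sin_ph_sub [NeZero M] (θ x y : Tor d M) :
    Real.sin (ph θ (x - y)) = Real.sin (ph θ x - ph θ y) := by
  rw [sub_eq_add_neg, sin_ph_add, Real.sin_add, cos_ph_neg, sin_ph_neg, Real.sin_sub]
  ring

/-- multiples of the momentum -/
theorem cos_ph_nsmul [NeZero M] (n : ℕ) (θ x : Tor d M) :
    Real.cos (ph (n • θ) x) = Real.cos (n * ph θ x) := by
  rw [cos_ph_of (a := fun i => (n : ℤ) * (θ i).valMinAbs) (b := fun i => (x i).valMinAbs)
    (fun i => by push_cast [ZMod.coe_valMinAbs]; simp)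
    (fun i => ZMod.coe_valMinAbs _), phI_mul_left]
  simp [ph_eq_phI]

theorem bh_neg [NeZero M] (b : Tor d M → ℝ) (θ : Tor d M) : bh b (-θ) = bh b θ := by
  unfold bh
  exact Finset.sum_congr rfl fun y _ => by rw [cos_ph_neg_left]

theorem ft_nonneg [NeZero M] (w : Tor d M → ℝ) (θ : Tor d M) : 0 ≤ ft w θ := by
  unfold ft
  positivity

theorem ft_neg [NeZero M] (w : Tor d M → ℝ) (θ : Tor d M) : ft w (-θ) = ft w θ := by
  unfold ft
  simp only [cos_ph_neg_left, sin_ph_neg_left, mul_neg, Finset.sum_neg_distrib, neg_sq]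

theorem om_nonneg (θ : Tor d M) : 0 ≤ om θ :=
  Finset.sum_nonneg fun i _ => by
    have := Real.cos_le_one (2 * Real.pi * ((θ i).valMinAbs : ℝ) / M)
    linarith

theorem NK_nonneg [NeZero M] (b : Tor d M → ℝ) (ε : ℝ) (w : Tor d M → ℝ) : 0 ≤ NK b ε w :=
  Finset.sum_nonneg fun _ _ => mul_nonneg (Real.sqrt_nonneg _) (ft_nonneg _ _)

theorem kk_pos [NeZero M] (b : Tor d M → ℝ) {ε : ℝ} (hε : 0 < ε) (θ : Tor d M) :
    0 < kk b ε θ := by
  unfold kk
  positivity

theorem kk_le [NeZero M] (b : Tor d M → ℝ) {ε : ℝ} (hε : 0 < ε) (θ : Tor d M) :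
    kk b ε θ ≤ 1 / ε := by
  unfold kk
  refine one_div_le_one_div_of_le hε ?_
  refine Real.le_sqrt_of_sq_le ?_
  nlinarith [sq_nonneg (1 - bh b θ)]

/-! ### flatness -/

theorem FlatD.mono [NeZero M] {δ δ' z μ : ℝ} {V : Tor d M → ℝ} (h : FlatD δ z μ V) (hμ : 0 ≤ μ)
    (hδ : δ ≤ δ') : FlatD δ' z μ V :=
  ⟨h.1, h.2.1, fun x => (h.2.2 x).trans (mul_le_mul_of_nonneg_right hδ hμ)⟩

theorem FlatD.lower [NeZero M] {δ z μ : ℝ} {V : Tor d M → ℝ} (h : FlatD δ z μ V) (x : Tor d M) :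
    (1 - δ) * μ ≤ DD z V x := by
  have := (abs_le.1 (h.2.2 x)).1
  linarith

theorem FlatD.upper [NeZero M] {δ z μ : ℝ} {V : Tor d M → ℝ} (h : FlatD δ z μ V) (x : Tor d M) :
    DD z V x ≤ (1 + δ) * μ := by
  have := (abs_le.1 (h.2.2 x)).2
  linarith

theorem FlatD.lt [NeZero M] {δ z μ : ℝ} {V : Tor d M → ℝ} (h : FlatD δ z μ V) (x : Tor d M) :
    V x < z := by
  have h1 := pos_of_posDef h.2.1 (f := Pi.single x 1) (by
    intro h0
    have := congrFun h0 x
    simp at this)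
  rw [Finset.sum_eq_single x] at h1
  · simp only [Pi.single_eq_same, one_mul, Matrix.mulVec_single_one, Matrix.col_apply] at h1
    unfold AM at h1
    rw [Matrix.sub_apply, Matrix.diagonal_apply_eq] at h1
    have := adj_nonneg x x
    linarith
  · intro y _ hy
    simp [hy]
  · simp

/-- bound for the potential -/
theorem FlatD.abs_le [NeZero M] {δ z μ : ℝ} {V : Tor d M → ℝ} (h : FlatD δ z μ V)
    (hz : z ≤ 2 * d + 1) (x : Tor d M) : |V x| ≤ 2 * d + 1 := by
  rw [_root_.abs_le]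
  have h1 := h.1 x
  have h2 := h.lt x
  have h3 : (0 : ℝ) ≤ d := by positivity
  constructor <;> linarith

end Pool.Agent.IR
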