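import Pool.Agent.Helper41_IR.Phase

/-!
# IR: module statements
-/

set_option autoImplicit false

open MeasureTheory ProbabilityTheory

open scoped ENNReal NNReal BigOperators

noncomputable section

namespace Pool.Agent.IR

open Matrix Pool.Agent.Anderson Pool.Agent.Loc Pool.Agent.BED

/-- Module GAP: the penalty opens a gap. -/
def GapStmt : Prop := ∀ (d M l : ℕ) [NeZero M] (z μ E : ℝ) (V : Tor d M → ℝ), Par d M l z μ E →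
  FlatD (1 / 50) z μ V →
    (∀ u, 17 / 10 / (d * (l : ℝ) ^ 2) * sqn u ≤
      ip u (AM z V *ᵥ u) + sL d l * sqn (QM d M l *ᵥ u)) ∧
    (AP l E V).PosDef ∧
    (∀ u, 1 / (d * (l : ℝ) ^ 2) * sqn u ≤ ip u (AP l E V *ᵥ u)) ∧
    (∀ f, sqn (GP l E V *ᵥ f) ≤ (d * (l : ℝ) ^ 2) ^ 2 * sqn f) ∧
    (∀ x y, BB l E V x y = BB l E V y x) ∧
    (∀ w, 0 ≤ ip w (BB l E V *ᵥ w)) ∧
    (∀ w, ip w (BB l E V *ᵥ w) ≤ 2 * sqn w) ∧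
    (∀ w, sqn (BB l E V *ᵥ w) ≤ 4 * sqn w)

/-- Module SUP: sup bound for `GP QMᵀ`, as a bound for its rows. -/
def SupStmt : Prop := ∀ d : ℕ, 1 ≤ d → ∃ C : ℝ, 0 < C ∧
  ∀ (M l : ℕ) [NeZero M] (z μ E : ℝ) (V : Tor d M → ℝ), Par d M l z μ E →
    FlatD (1 / 50) z μ V →
      ∀ x, (l : ℝ) ^ d * ∑ y, ((GP l E V * (QM d M l)ᵀ) x y) ^ 2 ≤ C * (l : ℝ) ^ 4

/-- Module CT: Combes-Thomas bounds. -/
def CtStmt : Prop := ∀ d : ℕ, 1 ≤ d → ∃ C : ℝ, 0 < C ∧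
  ∀ (M l : ℕ) [NeZero M] (z μ E : ℝ) (V : Tor d M → ℝ), Par d M l z μ E →
    FlatD (1 / 50) z μ V →
      (∀ x y, |(GP l E V * (QM d M l)ᵀ) x y| ≤
        C * (l : ℝ) ^ 2 * Real.exp (-((nd (x - y) : ℝ) / (3 * d * l)))) ∧
      ∀ x y, (l : ℝ) ^ d * |BB l E V x y| ≤ C * Real.exp (-((nd (x - y) : ℝ) / (3 * d * l)))

/-- Module COER: upper bound of `BB` by `1/(1 - c l² Δ)`. -/
def CoerStmt : Prop := ∀ (d M l : ℕ) [NeZero M] (z μ E δ : ℝ) (V : Tor d M → ℝ),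
  Par d M l z μ E → 0 ≤ δ → δ ≤ 1 / 50 → FlatD δ z μ V →
    ∀ (w : Tor d M → ℝ) (o : ℝ), 0 ≤ o →
      (∀ x, ∑ i : Fin d, (w (x + ev i) + w (x - ev i)) = (2 * d - o) * w x) →
      ip w (BB l E V *ᵥ w) ≤ (1 + d * ((z - E) * (l : ℝ) ^ 2 + 4 * d * δ ^ 2)) *
        (2 / (2 + 2 / 5 * d * (l : ℝ) ^ 2 * o)) * sqn w

/-- Module ZERO: lower bound for `BB` at zero momentum. -/
def ZeroStmt : Prop := ∀ (d M l : ℕ) [NeZero M] (z μ E δ : ℝ) (V : Tor d M → ℝ),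
  Par d M l z μ E → 0 ≤ δ → δ ≤ 1 / 50 → FlatD δ z μ V →
    (1 - 4 * δ) * (sL d l / (sL d l - (z - E) + 1 / μ)) * (M : ℝ) ^ d ≤ ∑ x, ∑ y, BB l E V x y

/-- Module COVB: translation covariance. -/
def CovbStmt : Prop := ∀ (d M l : ℕ) [NeZero M] (E : ℝ) (V : Tor d M → ℝ) (x : Tor d M),
  (∀ y w, GP l E (tr x V) y w = GP l E V (x + y) (x + w)) ∧
  (∀ y w, BB l E (tr x V) y w = BB l E V (x + y) (x + w)) ∧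
  ∀ δ z μ : ℝ, FlatD δ z μ (tr x V) ↔ FlatD δ z μ V

/-- Module MEAS: measurability. -/
def MeasStmt : Prop := ∀ (d M l : ℕ) [NeZero M] (E δ z μ : ℝ),
  (∀ x y, Measurable fun V : Tor d M → ℝ => GP l E V x y) ∧
  (∀ x y, Measurable fun V : Tor d M → ℝ => BB l E V x y) ∧
  MeasurableSet (Gd d M δ z μ)

/-- Module MEAN: the properties of the mean of the effective operator. -/
def MeanStmt : Prop := ∀ d : ℕ, 1 ≤ d → ∃ C : ℝ, 0 < C ∧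
  ∀ (M l : ℕ) [NeZero M] (z μ E δ : ℝ) (v : ℝ≥0), Par d M l z μ E → 0 ≤ δ → δ ≤ 1 / 50 →
    gau d M v (Gd d M δ z μ) ≠ 0 →
      (∀ x y, (∫ V in Gd d M δ z μ, BB l E V x y ∂(gau d M v)) /
        (gau d M v (Gd d M δ z μ)).toReal = bbar v δ z μ l E (y - x)) ∧
      ∀ τ : ℝ, 1 + τ ≤ (1 - 4 * δ) * (sL d l / (sL d l - (z - E) + 1 / μ)) →
        Sym d M l C (d * ((z - E) * (l : ℝ) ^ 2 + 4 * d * δ ^ 2)) τ (bbar v δ z μ l E)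

/-- Module FOUR: finite Fourier analysis. -/
def FourStmt : Prop := ∀ (d M : ℕ) [NeZero M],
  (∀ w : Tor d M → ℝ, ∑ θ, ft w θ = sqn w) ∧
  (mulM (fun _ : Tor d M => 1) = 1) ∧
  (∀ u1 u2 : Tor d M → ℝ, (∀ θ, u1 (-θ) = u1 θ) → (∀ θ, u2 (-θ) = u2 θ) →
    mulM u1 * mulM u2 = mulM (fun θ => u1 θ * u2 θ)) ∧
  (∀ u w : Tor d M → ℝ, ip w (mulM u *ᵥ w) = ∑ θ, u θ * ft w θ) ∧
  (∀ (u w : Tor d M → ℝ) (θ : Tor d M), (∀ θ, u (-θ) = u θ) →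
    ft (mulM u *ᵥ w) θ = u θ ^ 2 * ft w θ) ∧
  (∀ b : Tor d M → ℝ, (∀ y, b (-y) = b y) → cvM b = mulM (bh b)) ∧
  (∀ (w : Tor d M → ℝ) (θ : Tor d M), (M : ℝ) ^ d * ft w θ ≤ (∑ x, |w x|) ^ 2)

/-- Module SLICE: the Fourier transform of functions supported in a slab. -/
def SliceStmt : Prop := ∀ (d M : ℕ) [NeZero M] (w : Tor d M → ℝ) (i : Fin d) (x0 : ZMod M) (ρ : ℕ),
  (∀ x, w x ≠ 0 → ((x i - x0).valMinAbs).natAbs ≤ ρ) → ∀ θ : Tor d M,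
    (M : ℝ) * ft w θ ≤ (2 * ρ + 1) * ∑ t : ZMod M, ft w (Function.update θ i t)

/-- Module LINE: a sum over well separated values. -/
def LineStmt : Prop := ∀ (T : Finset ℤ) (y : ℤ → ℝ) (δ ε : ℝ) (N : ℕ), 0 < δ → 0 < ε →
  (∀ s ∈ T, ∀ t ∈ T, δ * |(s : ℝ) - t| ≤ |y s - y t|) → (∀ s ∈ T, ∀ t ∈ T, |s - t| ≤ N) →
    ∑ t ∈ T, 1 / Real.sqrt (y t ^ 2 + ε ^ 2) ≤ 2 / ε + 6 / δ * Real.log (1 + N * δ / ε)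

/-- Module MOM: moments. -/
def MomStmt : Prop := ∀ d : ℕ, 1 ≤ d → ∀ C : ℝ, 0 < C → ∃ C' : ℝ, 0 < C' ∧
  ∀ (M l : ℕ) [NeZero M] (b : Tor d M → ℝ), 1 ≤ l →
    (∀ y, (l : ℝ) ^ d * |b y| ≤ C * Real.exp (-((nd y : ℝ) / (3 * d * l)))) →
      ∀ k ≤ 4, ∑ y, |b y| * ((nd y : ℝ) / l) ^ k ≤ C'

/-- Module SYM: the regions of momentum space. -/
def SymStmt : Prop := ∀ d : ℕ, 1 ≤ d → ∀ C : ℝ, 0 < C → ∃ γ0 : ℝ, 0 < γ0 ∧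
  ∀ τ : ℝ, 0 < τ → ∃ ε0 C' : ℝ, 0 < ε0 ∧ 0 < C' ∧
    ∀ (M l : ℕ) [NeZero M] (b : Tor d M → ℝ) (γ : ℝ), 1 ≤ l → (l : ℝ) ≤ ε0 * M → 0 ≤ γ → γ ≤ γ0 →
      Sym d M l C γ τ b → ∃ R : Fin d → Bool → Set (Tor d M),
        (∀ θ, (∀ i s, θ ∉ R i s) → 1 ≤ C' * |1 - bh b θ|) ∧
        (∀ i s θ, θ ∈ R i s → ∀ j, |((θ j).valMinAbs : ℝ)| * l ≤ M) ∧
        (∀ i s θ t, θ ∈ R i s → Function.update θ i t ∈ R i s →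
          |((θ i).valMinAbs : ℝ) - (t.valMinAbs : ℝ)| * l ≤
            C' * M * |bh b θ - bh b (Function.update θ i t)|)

/-- first bound for the multiplier `kk`: functions supported in a box of radius `ρ` -/
def KBox (d M : ℕ) [NeZero M] (l : ℕ) (C : ℝ) (b : Tor d M → ℝ) (ε : ℝ) : Prop :=
  ∀ (w : Tor d M → ℝ) (x0 : Tor d M) (ρ : ℕ),
    (∀ x, w x ≠ 0 → ∀ i, ((x i - x0 i).valMinAbs).natAbs ≤ ρ) →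
      ∑ θ, kk b ε θ * ft w θ ≤ C * (1 + (2 * ρ + 1) / l * Real.log (1 / ε)) * sqn w

/-- second bound for the multiplier `kk` -/
def KGen (d M : ℕ) [NeZero M] (l : ℕ) (C : ℝ) (b : Tor d M → ℝ) (ε : ℝ) : Prop :=
  ∀ g : Tor d M → ℝ, (l : ℝ) ^ d * ∑ θ, kk b ε θ * ft g θ ≤
    C * ((l : ℝ) ^ d * sqn g + Real.log (1 / ε) * (∑ x, |g x|) ^ 2)

/-- Module KBND: bounds for the multiplier `kk`. -/
def KbndStmt : Prop := ∀ d : ℕ, 1 ≤ d → ∀ C : ℝ, 0 < C → ∃ γ0 : ℝ, 0 < γ0 ∧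
  ∀ τ : ℝ, 0 < τ → ∃ ε0 C' : ℝ, 0 < ε0 ∧ ε0 ≤ 1 / 2 ∧ 1 ≤ C' ∧
    ∀ (M l : ℕ) [NeZero M] (b : Tor d M → ℝ) (γ ε : ℝ), 1 ≤ l → 0 < ε → ε ≤ ε0 →
      (l : ℝ) ≤ ε * M → 0 ≤ γ → γ ≤ γ0 → Sym d M l C γ τ b →
        KBox d M l C' b ε ∧ KGen d M l C' b ε

/-- Module KHI: Khintchine inequality for `T D Tᵀ`. -/
def KhiStmt : Prop := ∀ (n : Type) [Fintype n] [DecidableEq n] (T : Matrix n n ℝ) (v : ℝ≥0)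
  (κ L s ρ : ℝ) (p : ℕ), 0 ≤ κ → 0 ≤ L → 0 ≤ s → 0 < ρ → 1 ≤ p →
    (∀ y, ∑ x, T x y ^ 2 ≤ κ) → (∀ u, sqn (T *ᵥ u) ≤ L * sqn u) →
      (Measure.pi fun _ : n => gaussianReal 0 v)
          {D | (∀ y, |D y| ≤ s) ∧ ∃ a : n → ℝ, ρ * sqn a < |∑ y, D y * ((Tᵀ *ᵥ a) y) ^ 2|} ≤
        ENNReal.ofReal (Fintype.card n * (2 * p * (s ^ 2 * κ * L) / ρ ^ 2) ^ p)

/-- Module GROW: the rows of `GP QMᵀ`. -/
def GrowStmt : Prop := ∀ d : ℕ, 1 ≤ d → ∃ C : ℝ, 0 < C ∧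
  ∀ (M l : ℕ) [NeZero M] (z μ E : ℝ) (V : Tor d M → ℝ), Par d M l z μ E →
    FlatD (1 / 50) z μ V → ∀ x,
      (l : ℝ) ^ d * ∑ y, ((GP l E V * (QM d M l)ᵀ) x y) ^ 2 ≤ C * (l : ℝ) ^ 4 ∧
      (∑ y, |(GP l E V * (QM d M l)ᵀ) x y|) ^ 2 ≤ C * Real.log M ^ d * (l : ℝ) ^ 4

/-- the derivative of `ip w (BB l E V *ᵥ w)` in the direction `D` -/
def dB {d M : ℕ} [NeZero M] (l : ℕ) (E : ℝ) (V D w : Tor d M → ℝ) : ℝ :=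
  sL d l * ∑ y, D y * ((GP l E V *ᵥ ((QM d M l)ᵀ *ᵥ w)) y) ^ 2

/-- Module KHB: the derivative of `BB` in a random direction. -/
def KhbStmt : Prop := ∀ d : ℕ, 1 ≤ d → ∃ C : ℝ, 0 < C ∧
  ∀ (M l : ℕ) [NeZero M] (z μ E : ℝ) (V b : Tor d M → ℝ) (ε Cg s ρ : ℝ) (v : ℝ≥0) (p : ℕ),
    Par d M l z μ E → FlatD (1 / 50) z μ V → (∀ y, b (-y) = b y) → 0 < ε → ε ≤ 1 / 2 → 1 ≤ Cg →
      KGen d M l Cg b ε → 0 ≤ s → 0 < ρ → 1 ≤ p →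
        gau d M v {D | (∀ y, |D y| ≤ s) ∧ ∃ w, ρ * NK b ε w < |dB l E V D w|} ≤
          ENNReal.ofReal ((M : ℝ) ^ d * (p * C * Cg * s ^ 2 * Real.log M ^ d * Real.log (1 / ε) *
            (l : ℝ) ^ 4 / ((l : ℝ) ^ d * ε * ρ ^ 2)) ^ p)

/-- Module ROT: the Gaussian measure on pairs is invariant under rotations. -/
def RotStmt : Prop := ∀ (n : Type) [Fintype n] (v : ℝ≥0) (a : ℝ),
  MeasurePreserving (fun q : (n → ℝ) × (n → ℝ) => (rotV a q.1 q.2, rotD a q.1 q.2))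
    ((Measure.pi fun _ : n => gaussianReal 0 v).prod (Measure.pi fun _ : n => gaussianReal 0 v))
    ((Measure.pi fun _ : n => gaussianReal 0 v).prod (Measure.pi fun _ : n => gaussianReal 0 v))

/-- the angles of the path -/
def ang (N j : ℕ) : ℝ := j * Real.pi / (2 * N)

/-- Module PATH: the discretised path from `V` to `V'`. -/
def PathStmt : Prop := ∀ d : ℕ, 1 ≤ d → ∃ C : ℝ, 0 < C ∧
  ∀ (M l : ℕ) [NeZero M] (z μ E : ℝ) (b : Tor d M → ℝ) (ε ρ : ℝ) (N : ℕ) (V V' : Tor d M → ℝ),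
    Par d M l z μ E → 0 < ε → ε ≤ 1 → 0 ≤ ρ → 1 ≤ N → C * (l : ℝ) ^ 4 / ε ≤ N →
      (∀ j ≤ N, FlatD (1 / 50) z μ (rotV (ang N j) V V')) →
      (∀ j < N, ∀ w, |dB l E (rotV (ang N j) V V') (rotD (ang N j) V V') w| ≤ ρ * NK b ε w) →
        ∀ w, |ip w ((BB l E V' - BB l E V) *ᵥ w)| ≤ (2 * ρ + 1 / 16) * NK b ε w

/-- Module AVG: with large probability `BB` is close to its mean. -/
def AvgStmt : Prop := ∀ d : ℕ, 1 ≤ d → ∀ K : ℕ, ∃ C : ℝ, 0 < C ∧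
  ∀ (M l : ℕ) [NeZero M] (z μ E δ : ℝ) (v : ℝ≥0) (b : Tor d M → ℝ) (ε Cg p : ℝ),
    Par d M l z μ E → 0 ≤ δ → δ ≤ 1 / 50 → 0 < v → (∀ y, b (-y) = b y) →
      (∀ x y, (∫ V in Gd d M δ z μ, BB l E V x y ∂(gau d M v)) /
        (gau d M v (Gd d M δ z μ)).toReal = b (y - x)) →
      0 < ε → ε ≤ 1 / 2 → (l : ℝ) ≤ ε * M → 1 ≤ Cg → KGen d M l Cg b ε →
      C * Cg * v * Real.log M ^ (d + 2) * Real.log (1 / ε) * (l : ℝ) ^ 4 ≤ ε * (l : ℝ) ^ d →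
      0 ≤ p → p ≤ 1 / 2 → gau d M v (Gd d M δ z μ)ᶜ ≤ ENNReal.ofReal p →
        gau d M v {V | ¬ (FlatD δ z μ V ∧
            ∀ w, |ip w ((BB l E V - cvM b) *ᵥ w)| ≤ 1 / 4 * NK b ε w)} ≤
          ENNReal.ofReal (C * (M : ℝ) ^ 7 * (p + 1 / (M : ℝ) ^ K))

/-- Module CORE: local mass bound on the torus. -/
def CoreStmt : Prop := ∀ d : ℕ, 1 ≤ d → ∃ C : ℝ, 0 < C ∧
  ∀ (M l : ℕ) [NeZero M] (z μ E : ℝ) (V b : Tor d M → ℝ) (ε Cb : ℝ),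
    Par d M l z μ E → FlatD (1 / 50) z μ V → (∀ y, b (-y) = b y) → 0 < ε → ε ≤ 1 / 2 →
      (l : ℝ) ≤ ε * M → 1 ≤ Cb → KBox d M l Cb b ε →
      (∀ w, |ip w ((BB l E V - cvM b) *ᵥ w)| ≤ 1 / 4 * NK b ε w) →
        ∀ u r : Tor d M → ℝ, AM E V *ᵥ u = r → ∀ (x0 : Tor d M) (ρ : ℕ),
          ∑ x, (if ∀ i, ((x i - x0 i).valMinAbs).natAbs ≤ ρ then u x ^ 2 else 0) ≤
            C * Cb * ε * Real.log (1 / ε) * (ρ / l + Real.log M) *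
              (sqn u + (l : ℝ) ^ 4 * sqn r / ε ^ 2)

/-- Module TRANSP: from `ℤ^d` to the torus. -/
def TranspStmt : Prop := ∀ (d M L : ℕ) [NeZero M], 1 ≤ L → 4 * L + 5 ≤ M →
  ∀ (W : Site d → ℝ) (E : ℝ) (v r : L2 d),
    (∀ y, lap v y + (W y : ℂ) * v y - (E : ℂ) * v y = r y) →
      ∃ u1 u2 r1 r2 : Tor d M → ℝ, AM E (fun x => W (rep x)) *ᵥ u1 = r1 ∧
        AM E (fun x => W (rep x)) *ᵥ u2 = r2 ∧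
        sqn u1 + sqn u2 ≤ ‖v‖ ^ 2 ∧
        sqn r1 + sqn r2 ≤ 2 * ‖r‖ ^ 2 + 8 * (d : ℝ) ^ 2 / (L : ℝ) ^ 2 * ‖v‖ ^ 2 ∧
        ∀ x : Site d, (∀ i, |x i| ≤ L) →
          ‖v x‖ ^ 2 = u1 (H61.red M x) ^ 2 + u2 (H61.red M x) ^ 2

/-- Module FLAT2: flatness with an arbitrary precision. -/
def Flat2Stmt : Prop := ∀ d : ℕ, 3 ≤ d → ∀ δ : ℝ, 0 < δ → δ ≤ 1 / 50 →
  ∃ c0 C0 : ℝ, 0 < c0 ∧ 0 < C0 ∧
    ∀ (M : ℕ) [NeZero M] (t : ℝ) (σ : ℝ≥0) (p : ℝ), 3 ≤ M → 1 ≤ t → t ≤ M → 0 < σ → σ ≤ 1 →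
      p = C0 * (1 + Real.log t) * (M : ℝ) ^ d * Real.exp (-c0 / ((σ : ℝ) ^ 2 * growth d t)) →
      p ≤ 1 / 2 →
      ∃ z μ : ℝ, 9 * t ≤ μ ∧ μ ≤ 13 * t ∧ z ≤ 2 * d + 1 ∧
        |z - 2 * d| ≤ C0 * ((σ : ℝ) ^ 2 + 1 / t + Real.sqrt p) ∧
        gau d M (σ ^ 2) {V | ¬ FlatD δ z μ V} ≤ ENNReal.ofReal p

end Pool.Agent.IR
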